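import Pool.Agent.TH221.HM.Example

/-!
# Two different solutions
-/

open Complex Real Filter Topology ComplexConjugate

namespace Pool.Agent.TH221.HM

noncomputable section

/-- The value of `L` at the base point. -/
def G0 (m a : ℝ) (k : Fin 3) : ℝ := GG a (tt m k) (π / 2 + Real.arctan (tt m k))

theorem L_base_eq (m a : ℝ) (k : Fin 3) :
    (L a (a + 299 / 2) (tt m k) (1 + I)).re = -G0 m a k := by
  rw [L_re_base, G0, GG, DD]
  ring

/-- The difference at the left tip. -/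
def U0 (m a : ℝ) : Fin 3 → ℝ :=
  ![(1 + tt m 0 ^ 2) / (1 + tt m 0) - tt m 0,
    (1 + tt m 1 ^ 2) * (a * tt m 1 - 299 / 2) - tt m 1,
    (1 + tt m 2 ^ 2) * (a * tt m 2 - 299 / 2) - tt m 2]

theorem side {m a : ℝ} (ha : 0 < a) (x0 : 1 + tt m 0 < 0)
    (p0 : 0 < a * (1 + tt m 0) ^ 2 - (a + 299 / 2) * (1 + tt m 0) - 1)
    (x1 : 0 < 1 + tt m 1)
    (p1 : a * (1 + tt m 1) ^ 2 - (a + 299 / 2) * (1 + tt m 1) - 1 < 0)
    (x2 : 0 < 1 + tt m 2)
    (p2 : a * (1 + tt m 2) ^ 2 - (a + 299 / 2) * (1 + tt m 2) - 1 < 0) :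
    ∃ τ1 τ2 A B : ℝ, ∀ ν : Fin 3 → ℝ, (∀ k, 0 < ν k) → ∃ r : ℝ,
      Data a (a + 299 / 2) (WW a (a + 299 / 2) (tt m) ν r) (QQ (tt m) ν) τ1 τ2 ∧
      (WW a (a + 299 / 2) (tt m) ν r (1 + I)).re = 0 ∧
      (WW a (a + 299 / 2) (tt m) ν r τ1).re = A + (ν 0 * (π * U0 m a 0 + G0 m a 0) +
        ν 1 * (π * U0 m a 1 + G0 m a 1) + ν 2 * (π * U0 m a 2 + G0 m a 2)) ∧
      (WW a (a + 299 / 2) (tt m) ν r τ2).re = B + (ν 0 * G0 m a 0 + ν 1 * G0 m a 1 +
        ν 2 * G0 m a 2) := by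
  have hβ : 0 < a + 299 / 2 := by linarith
  obtain ⟨τ1, τ2, t1, r1, t2, r2, fac⟩ := tips ha hβ
  have q0 := lt_tip1 ha t2 fac x0 p0
  have q1 := lt_tip2 ha t1 fac x1 p1
  have q2 := lt_tip2 ha t1 fac x2 p2
  refine ⟨τ1, τ2, (Psi a (a + 299 / 2) τ1).re - (Psi a (a + 299 / 2) (1 + I)).re,
    (Psi a (a + 299 / 2) τ2).re - (Psi a (a + 299 / 2) (1 + I)).re, ?_⟩
  intro ν hν
  refine ⟨(Psi a (a + 299 / 2) (1 + I)).re + (ν 0 * -G0 m a 0 + ν 1 * -G0 m a 1 +
    ν 2 * -G0 m a 2), ?_, ?_, ?_, ?_⟩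
  · refine WW_data _ ha hβ hν ?_ t1 r1 t2 r2 ?_ ?_
    · intro k
      fin_cases k
      · exact x0.ne
      · exact x1.ne'
      · exact x2.ne'
    · intro k
      fin_cases k
      · exact q0.ne'
      · exact (t1.trans x1).ne
      · exact (t1.trans x2).ne
    · intro k
      fin_cases k
      · exact (x0.trans t2).ne'
      · exact q1.ne'
      · exact q2.ne'
  · rw [WW_re, L_base_eq, L_base_eq, L_base_eq]
    ring
  · rw [WW_re, L_re_tip1_left t1 q0, L_re_tip1_right t1 (t1.trans x1) x1.ne',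
      L_re_tip1_right t1 (t1.trans x2) x2.ne']
    simp only [U0, Matrix.cons_val_zero, Matrix.cons_val_one, Matrix.cons_val]
    ring
  · rw [WW_re, L_re_tip2 t2 (x0.trans t2), L_re_tip2 t2 q1, L_re_tip2 t2 q2]
    ring

theorem side_a : ∃ τ1 τ2 A B : ℝ, ∀ ν : Fin 3 → ℝ, (∀ k, 0 < ν k) → ∃ r : ℝ,
      Data (26667 / 26666) (26667 / 26666 + 299 / 2)
        (WW (26667 / 26666) (26667 / 26666 + 299 / 2) (tt (1 / 200)) ν r) (QQ (tt (1 / 200)) ν) τ1 τ2 ∧
      (WW (26667 / 26666) (26667 / 26666 + 299 / 2) (tt (1 / 200)) ν r (1 + I)).re = 0 ∧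
      (WW (26667 / 26666) (26667 / 26666 + 299 / 2) (tt (1 / 200)) ν r τ1).re =
        A + (ν 0 * (π * U0 (1 / 200) (26667 / 26666) 0 + G0 (1 / 200) (26667 / 26666) 0) +
        ν 1 * (π * U0 (1 / 200) (26667 / 26666) 1 + G0 (1 / 200) (26667 / 26666) 1) +
        ν 2 * (π * U0 (1 / 200) (26667 / 26666) 2 + G0 (1 / 200) (26667 / 26666) 2)) ∧
      (WW (26667 / 26666) (26667 / 26666 + 299 / 2) (tt (1 / 200)) ν r τ2).re =
        B + (ν 0 * G0 (1 / 200) (26667 / 26666) 0 + ν 1 * G0 (1 / 200) (26667 / 26666) 1 +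
        ν 2 * G0 (1 / 200) (26667 / 26666) 2) := by
  apply side
  · norm_num
  · rw [tt_a0]; norm_num
  · rw [tt_a0]; norm_num
  · rw [tt_a1]; norm_num
  · rw [tt_a1]; norm_num
  · rw [tt_a2]; norm_num
  · rw [tt_a2]; norm_num

theorem side_b : ∃ τ1 τ2 A B : ℝ, ∀ ν : Fin 3 → ℝ, (∀ k, 0 < ν k) → ∃ r : ℝ,
      Data (16667 / 6666) (16667 / 6666 + 299 / 2)
        (WW (16667 / 6666) (16667 / 6666 + 299 / 2) (tt (1 / 100)) ν r) (QQ (tt (1 / 100)) ν) τ1 τ2 ∧
      (WW (16667 / 6666) (16667 / 6666 + 299 / 2) (tt (1 / 100)) ν r (1 + I)).re = 0 ∧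
      (WW (16667 / 6666) (16667 / 6666 + 299 / 2) (tt (1 / 100)) ν r τ1).re =
        A + (ν 0 * (π * U0 (1 / 100) (16667 / 6666) 0 + G0 (1 / 100) (16667 / 6666) 0) +
        ν 1 * (π * U0 (1 / 100) (16667 / 6666) 1 + G0 (1 / 100) (16667 / 6666) 1) +
        ν 2 * (π * U0 (1 / 100) (16667 / 6666) 2 + G0 (1 / 100) (16667 / 6666) 2)) ∧
      (WW (16667 / 6666) (16667 / 6666 + 299 / 2) (tt (1 / 100)) ν r τ2).re =
        B + (ν 0 * G0 (1 / 100) (16667 / 6666) 0 + ν 1 * G0 (1 / 100) (16667 / 6666) 1 +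
        ν 2 * G0 (1 / 100) (16667 / 6666) 2) := by
  apply side
  · norm_num
  · rw [tt_b0]; norm_num
  · rw [tt_b0]; norm_num
  · rw [tt_b1]; norm_num
  · rw [tt_b1]; norm_num
  · rw [tt_b2]; norm_num
  · rw [tt_b2]; norm_num

theorem g0_bounds : 1 / 1000 < G0 (1 / 100) (16667 / 6666) 0 - G0 (1 / 200) (26667 / 26666) 0 ∧
    G0 (1 / 100) (16667 / 6666) 0 - G0 (1 / 200) (26667 / 26666) 0 < 11 / 10000 := by
  have e1 : π / 2 + Real.arctan (-100) = Real.arctan (1 / 100) := by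
    have := at_A (1 / 100) (by norm_num)
    norm_num at this ⊢
    exact this
  have e2 : π / 2 + Real.arctan (-200) = Real.arctan (1 / 200) := by
    have := at_A (1 / 200) (by norm_num)
    norm_num at this ⊢
    exact this
  rw [G0, G0, tt_a0, tt_b0, e1, e2]
  exact ⟨bound_A_lo, bound_A_hi⟩

theorem g1_bounds : -(21 / 10000) <
    G0 (1 / 100) (16667 / 6666) 1 - G0 (1 / 200) (26667 / 26666) 1 := by
  rw [G0, G0, tt_a1, tt_b1, at_B0, at_B1]
  exact bound_B_lo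

theorem g2_bounds :
    G0 (1 / 100) (16667 / 6666) 2 - G0 (1 / 200) (26667 / 26666) 2 < -(24 / 100) := by
  rw [G0, G0, tt_a2, tt_b2, at_C0, at_C1]
  exact bound_C_hi

theorem u0_val : U0 (1 / 100) (16667 / 6666) 0 - U0 (1 / 200) (26667 / 26666) 0 =
    -200 / 19701 := by
  simp only [U0, Matrix.cons_val_zero, tt_a0, tt_b0]
  norm_num

theorem u1_val : U0 (1 / 100) (16667 / 6666) 1 - U0 (1 / 200) (26667 / 26666) 1 =
    168306934748894284755848286650 / 3679597254712653367352060786589 := by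
  simp only [U0, Matrix.cons_val_one, tt_a1, tt_b1]
  norm_num

theorem u2_val : U0 (1 / 100) (16667 / 6666) 2 - U0 (1 / 200) (26667 / 26666) 2 =
    3700861682826400 / 50214810640206267 := by
  simp only [U0, Matrix.cons_val, tt_a2, tt_b2]
  norm_num

theorem omega_props {Q : ℂ → ℂ} (hd : ∀ z : ℂ, ‖z‖ < 1 → DifferentiableAt ℂ Q z)
    (hre : ∀ z : ℂ, ‖z‖ < 1 → 0 < (Q z).re) :
    DifferentiableOn ℂ (fun z => (Q z - 1) / (Q z + 1)) (Metric.ball 0 1) ∧
    Set.MapsTo (fun z => (Q z - 1) / (Q z + 1)) (Metric.ball 0 1) (Metric.ball 0 1) := by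
  have ball : ∀ z : ℂ, z ∈ Metric.ball (0 : ℂ) 1 ↔ ‖z‖ < 1 := fun z => by simp
  have hne : ∀ z : ℂ, ‖z‖ < 1 → Q z + 1 ≠ 0 := by
    intro z hz h
    have := congrArg Complex.re h
    simp at this
    linarith [hre z hz]
  constructor
  · intro z hz
    have hz' := (ball z).mp hz
    exact (((hd z hz').sub_const 1).div ((hd z hz').add_const 1) (hne z hz')).differentiableWithinAt
  · intro z hz
    have hz' := (ball z).mp hz
    apply (ball _).mpr
    show ‖(Q z - 1) / (Q z + 1)‖ < 1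
    rw [norm_div, div_lt_one (norm_pos_iff.mpr (hne z hz'))]
    rw [← sq_lt_sq₀ (norm_nonneg _) (norm_nonneg _), ← Complex.normSq_eq_norm_sq,
      ← Complex.normSq_eq_norm_sq, Complex.normSq_apply, Complex.normSq_apply]
    simp only [Complex.sub_re, Complex.one_re, Complex.sub_im, Complex.one_im,
      Complex.add_re, Complex.add_im]
    nlinarith [hre z hz']

theorem QD_diff {m : ℝ} (hm : ∀ k, dd k - cc k * m ≠ 0) (ν : Fin 3 → ℝ) {z : ℂ} (hz : ‖z‖ < 1) :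
    DifferentiableAt ℂ (QD ν) z := by
  have h1 : ∀ w : ℂ, 0 < w.im → DifferentiableAt ℂ (QQ (tt m) ν) w := by
    intro w hw
    unfold QQ
    apply DifferentiableAt.const_add
    apply DifferentiableAt.fun_sum
    intro k _
    apply DifferentiableAt.const_mul
    unfold K
    apply DifferentiableAt.const_mul
    apply DifferentiableAt.sub_const
    apply DifferentiableAt.div (differentiableAt_const _)
    · exact (differentiableAt_const _).sub differentiableAt_id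
    · intro h
      have := congrArg Complex.im h
      simp at this
      linarith
  have h2 : DifferentiableAt ℂ (fun z => QQ (tt m) ν (cay m z)) z :=
    (h1 _ (cay_im hz)).comp z (cay_deriv hz).differentiableAt
  apply h2.congr_of_eventuallyEq
  have h3 : ∀ᶠ y in 𝓝 z, ‖y‖ < 1 :=
    (isOpen_lt continuous_norm continuous_const).mem_nhds hz
  filter_upwards [h3] with y hy
  exact (QQ_cay hm ν hy).symm

/-- The main theorem: two different solutions on the plane without two parallel rays. -/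
theorem two_solutions : ∃ (x₁ x₂ : ℝ) (w₀ : ℂ) (ω f₁ f₂ : ℂ → ℂ),
    w₀ ∈ Om x₁ x₂ ∧ DifferentiableOn ℂ ω (Metric.ball 0 1) ∧
    Set.MapsTo ω (Metric.ball 0 1) (Metric.ball 0 1) ∧
    IsSolution (Om x₁ x₂) w₀ ω f₁ ∧ IsSolution (Om x₁ x₂) w₀ ω f₂ ∧
    ∃ z ∈ Metric.ball (0 : ℂ) 1, f₁ z ≠ f₂ z := by
  obtain ⟨τ1, τ2, A, B, ha⟩ := side_a
  obtain ⟨σ1, σ2, A', B', hb⟩ := side_b
  have b0 := g0_bounds
  have b1 := g1_bounds
  have b2 := g2_bounds
  have v0 := u0_val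
  have v1 := u1_val
  have v2 := u2_val
  set gA := G0 (1 / 100) (16667 / 6666) 0 - G0 (1 / 200) (26667 / 26666) 0 with hgA
  set gB := G0 (1 / 100) (16667 / 6666) 1 - G0 (1 / 200) (26667 / 26666) 1 with hgB
  set gC := G0 (1 / 100) (16667 / 6666) 2 - G0 (1 / 200) (26667 / 26666) 2 with hgC
  set uA := U0 (1 / 100) (16667 / 6666) 0 - U0 (1 / 200) (26667 / 26666) 0 with huA
  set uB := U0 (1 / 100) (16667 / 6666) 1 - U0 (1 / 200) (26667 / 26666) 1 with huB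
  set uC := U0 (1 / 100) (16667 / 6666) 2 - U0 (1 / 200) (26667 / 26666) 2 with huC
  have c1 : uA * gB - uB * gA < 0 := by rw [v0, v1]; linarith [b0.1]
  have c2 : uB * gC - uC * gB < 0 := by rw [v1, v2]; linarith
  have c3 : uC * gA - uA * gC < 0 := by rw [v0, v2]; linarith [b0.2]
  obtain ⟨x, y, z, hx, hy, hz, s1, s2⟩ := weights c1 c2 c3 ((A - A' - (B - B')) / π) (B - B')
  have hπ : π ≠ 0 := Real.pi_ne_zero
  have s1' : π * (x * uA + y * uB + z * uC) = A - A' - (B - B') := by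
    rw [s1]; field_simp
  set ν : Fin 3 → ℝ := ![x, y, z] with hν
  have hνpos : ∀ k, 0 < ν k := by
    intro k
    fin_cases k
    · exact hx
    · exact hy
    · exact hz
  obtain ⟨r, Da, ra, t1a, t2a⟩ := ha ν hνpos
  obtain ⟨r', Db, rb, t1b, t2b⟩ := hb ν hνpos
  have n0 : ν 0 = x := rfl
  have n1 : ν 1 = y := rfl
  have n2 : ν 2 = z := rfl
  rw [n0, n1, n2] at t1a t2a t1b t2b
  have eq2 : (WW (16667 / 6666) (16667 / 6666 + 299 / 2) (tt (1 / 100)) ν r' σ2).re =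
      (WW (26667 / 26666) (26667 / 26666 + 299 / 2) (tt (1 / 200)) ν r τ2).re := by
    rw [t2a, t2b]
    rw [hgA, hgB, hgC] at s2
    linarith
  have eq1 : (WW (16667 / 6666) (16667 / 6666 + 299 / 2) (tt (1 / 100)) ν r' σ1).re =
      (WW (26667 / 26666) (26667 / 26666 + 299 / 2) (tt (1 / 200)) ν r τ1).re := by
    rw [t1a, t1b]
    rw [hgA, hgB, hgC] at s2
    rw [huA, huB, huC] at s1'
    linarith
  have ima : (Psi (26667 / 26666) (26667 / 26666 + 299 / 2) (1 + I)).im = 299 / 2 + π / 4 := by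
    rw [Psi_im', ell_base1]; simp
  have imb : (Psi (16667 / 6666) (16667 / 6666 + 299 / 2) (1 + I)).im = 299 / 2 + π / 4 := by
    rw [Psi_im', ell_base1]; simp
  have hma : ∀ k, dd k - cc k * (1 / 200) ≠ 0 := by
    intro k
    fin_cases k <;> norm_num [dd, cc]
  have hmb : ∀ k, dd k - cc k * (1 / 100) ≠ 0 := by
    intro k
    fin_cases k <;> norm_num [dd, cc]
  have pa : dPsi (26667 / 26666) (26667 / 26666 + 299 / 2) (1 + I) *
      ((1 + ((1 / 200 : ℝ) : ℂ) * I) / (1 - ((1 / 200 : ℝ) : ℂ) * I)) =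
      ((150 * (1 + (1 / 200) ^ 2) / (1 - (1 / 200) ^ 2) : ℝ) : ℂ) := by
    have h1 := dPsi_base (26667 / 26666) (299 / 2)
    have h2 := base_pos (m := 1 / 200) (a := 26667 / 26666) (B := 150) (by norm_num) (by norm_num)
    have h3 : (299 / 2 + 1 / 2 : ℝ) = 150 := by norm_num
    rw [h1, h3]
    exact h2
  have pb : dPsi (16667 / 6666) (16667 / 6666 + 299 / 2) (1 + I) *
      ((1 + ((1 / 100 : ℝ) : ℂ) * I) / (1 - ((1 / 100 : ℝ) : ℂ) * I)) =
      ((150 * (1 + (1 / 100) ^ 2) / (1 - (1 / 100) ^ 2) : ℝ) : ℂ) := by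
    have h1 := dPsi_base (16667 / 6666) (299 / 2)
    have h2 := base_pos (m := 1 / 100) (a := 16667 / 6666) (B := 150) (by norm_num) (by norm_num)
    have h3 : (299 / 2 + 1 / 2 : ℝ) = 150 := by norm_num
    rw [h1, h3]
    exact h2
  have hQ0 : 0 < 1 + (ν 0 + ν 1 + ν 2) := by
    have := hνpos 0
    have := hνpos 1
    have := hνpos 2
    linarith
  have sa := ff_sol Da (1 / 200) (Q := QD ν) (fun z hz => QQ_cay hma ν hz)
    (w₀ := ⟨0, 299 / 2 + π / 4⟩) (by rw [shear, ra, ima]) (QD_zero ν) hQ0 pa (by norm_num)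
  have sb := ff_sol Db (1 / 100) (Q := QD ν) (fun z hz => QQ_cay hmb ν hz)
    (w₀ := ⟨0, 299 / 2 + π / 4⟩) (by rw [shear, rb, imb]) (QD_zero ν) hQ0 pb (by norm_num)
  rw [eq1, eq2] at sb
  have hQre : ∀ z : ℂ, ‖z‖ < 1 → 0 < (QD ν z).re := by
    intro z hz
    rw [← QQ_cay hma ν hz]
    exact Da.hq _ (cay_im hz)
  have hom := omega_props (Q := QD ν) (fun z hz => QD_diff hma ν hz) hQre
  refine ⟨_, _, _, _, _, _, ?_, hom.1, hom.2, sa, sb, ?_⟩
  · rw [← sa.image, ← sa.base]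
    exact Set.mem_image_of_mem _ (by simp)
  · exact ff_ne pa pb (by norm_num)

end

end Pool.Agent.TH221.HM
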