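import Pool.Agent.TH221.HM.Image

/-!
# The shears given by finitely many atoms
-/

open Complex Real Filter Topology

namespace Pool.Agent.TH221.HM

noncomputable section

/-- The Herglotz kernel on the half plane with base point `1 + i` and atom at `1 + t`. -/
def K (t : ℝ) (w : ℂ) : ℂ := -I * ((1 + (t : ℂ) ^ 2) / ((1 + (t : ℂ)) - w) - (t : ℂ))

/-- The value of `dPsi` at the real point `1 + t`. -/
def DD (a β t : ℝ) : ℝ := -a * (1 + t) + β + 1 / (1 + t)

/-- An antiderivative of `K t * dPsi a β`. -/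
def L (a β t : ℝ) (w : ℂ) : ℂ :=
  -I * ((1 + (t : ℂ) ^ 2) * ((a : ℂ) * w - (DD a β t : ℂ) * ell (w - (1 + (t : ℂ))) +
    (1 / (1 + (t : ℂ))) * ell w) - (t : ℂ) * Psi a β w)

theorem K_re_pos (t : ℝ) {w : ℂ} (hw : 0 < w.im) : 0 < (K t w).re := by
  have hne : (1 + (t : ℂ)) - w ≠ 0 := by
    intro h
    have := congrArg Complex.im h
    simp at this
    linarith
  have h1 : (K t w).re = (1 + t ^ 2) * (w.im / Complex.normSq ((1 + (t : ℂ)) - w)) := by
    have h2 : (K t w) = -I * (((1 + t ^ 2 : ℝ) : ℂ) * ((1 + (t : ℂ)) - w)⁻¹ - ((t : ℝ) : ℂ)) := by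
      simp only [K, div_eq_mul_inv]
      push_cast
      ring
    rw [h2]
    simp only [Complex.mul_re, Complex.neg_re, Complex.I_re, Complex.neg_im, Complex.I_im,
      Complex.sub_re, Complex.sub_im, Complex.mul_im, Complex.ofReal_re, Complex.ofReal_im,
      Complex.inv_im, Complex.add_im, Complex.one_im]
    ring
  rw [h1]
  have := Complex.normSq_pos.mpr hne
  positivity

theorem L_deriv {a β t : ℝ} (hs : 1 + t ≠ 0) {w : ℂ} (h0 : good w) (h1 : good (w - (1 + (t : ℂ)))) :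
    HasDerivAt (L a β t) (K t w * dPsi a β w) w := by
  have d1 : HasDerivAt (fun w : ℂ => (a : ℂ) * w) ((a : ℂ) * 1) w :=
    (hasDerivAt_id w).const_mul (a : ℂ)
  have d2 : HasDerivAt (fun w : ℂ => ell (w - (1 + (t : ℂ)))) (1 / (w - (1 + (t : ℂ)))) w := by
    have e1 : HasDerivAt ell (1 / (w - (1 + (t : ℂ)))) (w - (1 + (t : ℂ))) := (ell_strict h1).hasDerivAt
    have e2 : HasDerivAt (fun w : ℂ => w - (1 + (t : ℂ))) 1 w := (hasDerivAt_id w).sub_const _
    have := HasDerivAt.comp w e1 e2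
    simpa [Function.comp_def] using this
  have d3 : HasDerivAt ell (1 / w) w := (ell_strict h0).hasDerivAt
  have d4 : HasDerivAt (Psi a β) (dPsi a β w) w := (Psi_strict a β h0).hasDerivAt
  have d5 := ((((d1.sub (d2.const_mul (DD a β t : ℂ))).add (d3.const_mul (1 / (1 + (t : ℂ))))).const_mul
    (1 + (t : ℂ) ^ 2)).sub (d4.const_mul (t : ℂ))).const_mul (-I)
  have hw0 : w ≠ 0 := good_ne h0
  have hw1 : w - (1 + (t : ℂ)) ≠ 0 := good_ne h1
  have hw2 : (1 + (t : ℂ)) - w ≠ 0 := by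
    intro h; apply hw1; linear_combination -h
  have hs' : (1 + (t : ℂ)) ≠ 0 := by exact_mod_cast hs
  have e : -I * ((1 + (t : ℂ) ^ 2) * ((a : ℂ) * 1 - (DD a β t : ℂ) * (1 / (w - (1 + (t : ℂ)))) +
      1 / (1 + (t : ℂ)) * (1 / w)) - (t : ℂ) * dPsi a β w) = K t w * dPsi a β w := by
    have key : (a : ℂ) * 1 - (DD a β t : ℂ) * (1 / (w - (1 + (t : ℂ)))) +
      1 / (1 + (t : ℂ)) * (1 / w) = dPsi a β w / ((1 + (t : ℂ)) - w) := by
      have e1 : (1 / (w - (1 + (t : ℂ)))) = -(1 / ((1 + (t : ℂ)) - w)) := by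
        field_simp
        ring
      rw [e1]
      simp only [DD, dPsi]
      push_cast
      field_simp
      ring
    rw [key, K]
    ring
  rw [e] at d5
  exact d5

theorem L_re (a β t : ℝ) (w : ℂ) : (L a β t w).re =
    (1 + t ^ 2) * (a * w.im - DD a β t * (ell (w - (1 + (t : ℂ)))).im +
      1 / (1 + t) * (ell w).im) - t * (Psi a β w).im := by
  have h1 : (1 / (1 + (t : ℂ))) = ((1 / (1 + t) : ℝ) : ℂ) := by push_cast; rfl
  have h2 : (1 + (t : ℂ) ^ 2) = ((1 + t ^ 2 : ℝ) : ℂ) := by push_cast; rfl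
  rw [L, h1, h2]
  simp only [Complex.mul_re, Complex.neg_re, Complex.I_re, Complex.neg_im, Complex.I_im,
    Complex.sub_re, Complex.sub_im, Complex.mul_im, Complex.ofReal_re, Complex.ofReal_im,
    Complex.add_im, Complex.add_re]
  ring

theorem L_bound (a β t : ℝ) {w : ℂ} (hw : 0 < w.im) :
    |(L a β t w).re - (1 + t ^ 2) * a * w.im| ≤
      ((1 + t ^ 2) * (|DD a β t| + |1 / (1 + t)|) * π + |t|) * (1 + |(Psi a β w).im|) := by
  rw [L_re]
  have h1 : 0 < (ell (w - (1 + (t : ℂ)))).im := ell_im_pos (by simpa using hw)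
  have h2 : (ell (w - (1 + (t : ℂ)))).im < π := ell_im_lt (by simpa using hw)
  have h3 := ell_im_pos hw
  have h4 := ell_im_lt hw
  set p := (ell (w - (1 + (t : ℂ)))).im
  set q := (ell w).im
  set Y := (Psi a β w).im
  set d := DD a β t
  set e := 1 / (1 + t)
  have h5 : (1 + t ^ 2) * (a * w.im - d * p + e * q) - t * Y - (1 + t ^ 2) * a * w.im =
      (1 + t ^ 2) * (-(d * p) + e * q) + -(t * Y) := by ring
  rw [h5]
  have h6 : |d * p| ≤ |d| * π := by rw [abs_mul, abs_of_pos h1]; gcongr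
  have h7 : |e * q| ≤ |e| * π := by rw [abs_mul, abs_of_pos h3]; gcongr
  have h8 : |(1 + t ^ 2) * (-(d * p) + e * q)| ≤ (1 + t ^ 2) * (|d| * π + |e| * π) := by
    rw [abs_mul, abs_of_pos (by positivity : 0 < 1 + t ^ 2)]
    gcongr
    calc |-(d * p) + e * q| ≤ |-(d * p)| + |e * q| := abs_add_le _ _
      _ ≤ _ := by rw [abs_neg]; linarith
  have h9 : |-(t * Y)| = |t| * |Y| := by rw [abs_neg, abs_mul]
  have hY : 0 ≤ |Y| := abs_nonneg _
  have ht : 0 ≤ |t| := abs_nonneg _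
  calc |(1 + t ^ 2) * (-(d * p) + e * q) + -(t * Y)|
      ≤ |(1 + t ^ 2) * (-(d * p) + e * q)| + |-(t * Y)| := abs_add_le _ _
    _ ≤ (1 + t ^ 2) * (|d| * π + |e| * π) + |t| * |Y| := by rw [h9]; linarith
    _ ≤ _ := by
      have hA : 0 ≤ (1 + t ^ 2) * (|d| + |e|) * π := by positivity
      nlinarith [mul_nonneg hA hY]

variable {ι : Type} [Fintype ι]

/-- The Herglotz function. -/
def QQ (t ν : ι → ℝ) (w : ℂ) : ℂ := 1 + ∑ k, (ν k : ℂ) * K (t k) w

/-- The primitive of `QQ * dPsi`, up to a real constant. -/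
def WW (a β : ℝ) (t ν : ι → ℝ) (r : ℝ) (w : ℂ) : ℂ :=
  Psi a β w + ∑ k, (ν k : ℂ) * L a β (t k) w - (r : ℂ)

theorem QQ_re (t ν : ι → ℝ) (hν : ∀ k, 0 < ν k) {w : ℂ} (hw : 0 < w.im) : 0 < (QQ t ν w).re := by
  rw [QQ, Complex.add_re, Complex.re_sum]
  have : ∀ k ∈ Finset.univ, 0 ≤ ((ν k : ℂ) * K (t k) w).re := by
    intro k _
    rw [Complex.re_ofReal_mul]
    exact (mul_pos (hν k) (K_re_pos _ hw)).le
  have := Finset.sum_nonneg this
  simp only [Complex.one_re]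
  linarith

theorem WW_deriv {a β : ℝ} {t ν : ι → ℝ} (r : ℝ) {w : ℂ} (hs : ∀ k, 1 + t k ≠ 0) (h0 : good w)
    (h1 : ∀ k, good (w - (1 + (t k : ℂ)))) :
    HasDerivAt (WW a β t ν r) (QQ t ν w * dPsi a β w) w := by
  have d1 : HasDerivAt (Psi a β) (dPsi a β w) w := (Psi_strict a β h0).hasDerivAt
  have d2 : HasDerivAt (fun w => ∑ k, (ν k : ℂ) * L a β (t k) w)
      (∑ k, (ν k : ℂ) * (K (t k) w * dPsi a β w)) w :=
    HasDerivAt.fun_sum fun k _ => (L_deriv (hs k) h0 (h1 k)).const_mul (ν k : ℂ)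
  have d3 := (d1.add d2).sub_const (r : ℂ)
  have e : dPsi a β w + ∑ k, (ν k : ℂ) * (K (t k) w * dPsi a β w) = QQ t ν w * dPsi a β w := by
    rw [QQ, add_mul, one_mul, Finset.sum_mul]
    congr 1
    apply Finset.sum_congr rfl
    intro k _
    ring
  rw [e] at d3
  exact d3

theorem good_of_real {τ t : ℝ} (h : τ ≠ 1 + t) : good ((τ : ℂ) - (1 + (t : ℂ))) := by
  right
  simp only [Complex.sub_re, Complex.ofReal_re, Complex.add_re, Complex.one_re]
  intro h2; apply h; linarith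

theorem WW_data {a β : ℝ} {t ν : ι → ℝ} (r : ℝ) (ha : 0 < a) (hβ : 0 < β) (hν : ∀ k, 0 < ν k)
    (hs : ∀ k, 1 + t k ≠ 0) {τ1 τ2 : ℝ} (t1 : τ1 < 0) (r1 : -a * τ1 + β + 1 / τ1 = 0) (t2 : 0 < τ2)
    (r2 : -a * τ2 + β + 1 / τ2 = 0) (n1 : ∀ k, τ1 ≠ 1 + t k) (n2 : ∀ k, τ2 ≠ 1 + t k) :
    Data a β (WW a β t ν r) (QQ t ν) τ1 τ2 where
  ha := ha
  hβ := hβ
  hW := fun w hw => WW_deriv r hs (Or.inl hw) (fun k => Or.inl (by simpa using hw))
  hq := fun w hw => QQ_re t ν hν hw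
  bound := by
    refine ⟨∑ k, ν k * ((1 + t k ^ 2) * a), ∑ k, ν k * ((1 + t k ^ 2) *
      (|DD a β (t k)| + |1 / (1 + t k)|) * π + |t k|) + |r|, ?_, ?_, ?_⟩
    · exact Finset.sum_nonneg fun k _ => by have := hν k; positivity
    · have : 0 ≤ ∑ k, ν k * ((1 + t k ^ 2) * (|DD a β (t k)| + |1 / (1 + t k)|) * π + |t k|) :=
        Finset.sum_nonneg fun k _ => by have := hν k; positivity
      positivity
    · intro w hw
      have e : (WW a β t ν r w).re - (Psi a β w).re - (∑ k, ν k * ((1 + t k ^ 2) * a)) * w.im =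
          ∑ k, ν k * ((L a β (t k) w).re - (1 + t k ^ 2) * a * w.im) + -r := by
        rw [WW, Complex.sub_re, Complex.add_re, Complex.re_sum, Complex.ofReal_re]
        have : ∀ k, ((ν k : ℂ) * L a β (t k) w).re = ν k * (L a β (t k) w).re :=
          fun k => Complex.re_ofReal_mul _ _
        simp only [this, mul_sub, Finset.sum_sub_distrib, Finset.sum_mul]
        have e2 : ∑ k, ν k * ((1 + t k ^ 2) * a) * w.im = ∑ k, ν k * ((1 + t k ^ 2) * a * w.im) :=
          Finset.sum_congr rfl fun k _ => by ring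
        rw [e2]
        ring
      rw [e]
      set Y := |(Psi a β w).im|
      have hY : 0 ≤ Y := abs_nonneg _
      have b1 : |∑ k, ν k * ((L a β (t k) w).re - (1 + t k ^ 2) * a * w.im)| ≤
          ∑ k, ν k * (((1 + t k ^ 2) * (|DD a β (t k)| + |1 / (1 + t k)|) * π + |t k|) * (1 + Y)) := by
        refine (Finset.abs_sum_le_sum_abs _ _).trans (Finset.sum_le_sum fun k _ => ?_)
        rw [abs_mul, abs_of_pos (hν k)]
        have := L_bound a β (t k) hw
        have := hν k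
        gcongr
      have b2 : ∑ k, ν k * (((1 + t k ^ 2) * (|DD a β (t k)| + |1 / (1 + t k)|) * π + |t k|) * (1 + Y)) =
          (∑ k, ν k * ((1 + t k ^ 2) * (|DD a β (t k)| + |1 / (1 + t k)|) * π + |t k|)) * (1 + Y) := by
        rw [Finset.sum_mul]
        exact Finset.sum_congr rfl fun k _ => by ring
      rw [b2] at b1
      calc |∑ k, ν k * ((L a β (t k) w).re - (1 + t k ^ 2) * a * w.im) + -r|
          ≤ |∑ k, ν k * ((L a β (t k) w).re - (1 + t k ^ 2) * a * w.im)| + |-r| := abs_add_le _ _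
        _ ≤ _ := by
          rw [abs_neg, add_mul]
          have : |r| * 1 ≤ |r| * (1 + Y) := by gcongr; linarith
          linarith
  t1 := t1
  r1 := r1
  t2 := t2
  r2 := r2
  c1 := (WW_deriv r hs (Or.inr (by simpa using t1.ne)) (fun k => good_of_real (n1 k))).continuousAt
  c2 := (WW_deriv r hs (Or.inr (by simpa using t2.ne')) (fun k => good_of_real (n2 k))).continuousAt

/-! ### Values at the tips and at the base point -/

theorem L_re_tip2 {a β t τ : ℝ} (hτ : 0 < τ) (h : 1 + t < τ) : (L a β t (τ : ℂ)).re = 0 := by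
  rw [L_re]
  have h1 : ((τ : ℂ) - (1 + (t : ℂ))) = ((τ - (1 + t) : ℝ) : ℂ) := by push_cast; rfl
  rw [h1, ell_im_real_pos (by linarith : 0 < τ - (1 + t)), Psi_im', ell_im_real_pos hτ]
  simp

theorem L_re_tip1_left {a β t τ : ℝ} (hτ : τ < 0) (h : 1 + t < τ) :
    (L a β t (τ : ℂ)).re = π * ((1 + t ^ 2) / (1 + t) - t) := by
  rw [L_re]
  have h1 : ((τ : ℂ) - (1 + (t : ℂ))) = ((τ - (1 + t) : ℝ) : ℂ) := by push_cast; rfl
  rw [h1, ell_im_real_pos (by linarith : 0 < τ - (1 + t)), Psi_im', ell_im_real_neg hτ]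
  simp only [Complex.ofReal_im, Complex.ofReal_re]
  ring

theorem L_re_tip1_right {a β t τ : ℝ} (hτ : τ < 0) (h : τ < 1 + t) (hs : 1 + t ≠ 0) :
    (L a β t (τ : ℂ)).re = π * ((1 + t ^ 2) * (a * (1 + t) - β) - t) := by
  rw [L_re]
  have h1 : ((τ : ℂ) - (1 + (t : ℂ))) = ((τ - (1 + t) : ℝ) : ℂ) := by push_cast; rfl
  rw [h1, ell_im_real_neg (by linarith : τ - (1 + t) < 0), Psi_im', ell_im_real_neg hτ]
  simp only [Complex.ofReal_im, Complex.ofReal_re, DD]
  field_simp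
  ring

theorem ell_base1 : (ell (1 + I)).im = π / 4 := by
  have := ell_im_base (-1)
  have h : (-((-1 : ℝ) : ℂ) + I) = 1 + I := by push_cast; ring
  rw [h] at this
  rw [this, Real.arctan_neg, Real.arctan_one]
  ring

theorem L_re_base (a β t : ℝ) : (L a β t (1 + I)).re =
    (1 + t ^ 2) * (a - DD a β t * (π / 2 + Real.arctan t) + 1 / (1 + t) * (π / 4)) -
      t * (-a + β + π / 4) := by
  rw [L_re]
  have h1 : ((1 : ℂ) + I - (1 + (t : ℂ))) = -(t : ℂ) + I := by ring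
  rw [h1, ell_im_base, ell_base1, Psi_im', ell_base1]
  simp

end

end Pool.Agent.TH221.HM
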