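import Pool.Agent.TH221.HM.Atoms

/-!
# The maps of the disk onto the half plane
-/

open Complex Real Filter Topology ComplexConjugate

namespace Pool.Agent.TH221.HM

noncomputable section

/-- The rotated variable. -/
def uu (m : ℝ) (z : ℂ) : ℂ := -I * ((1 + (m : ℂ) * I) / (1 - (m : ℂ) * I)) * z

/-- The map of the disk onto the half plane with `0 ↦ 1 + i`. -/
def cay (m : ℝ) (z : ℂ) : ℂ := 1 + I * ((1 + uu m z) / (1 - uu m z))

theorem one_sub_ne (m : ℝ) : (1 - (m : ℂ) * I) ≠ 0 := by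
  intro h
  have := congrArg Complex.re h
  simp at this

theorem one_add_ne (m : ℝ) : (1 + (m : ℂ) * I) ≠ 0 := by
  intro h
  have := congrArg Complex.re h
  simp at this

theorem rho_norm (m : ℝ) : ‖-I * ((1 + (m : ℂ) * I) / (1 - (m : ℂ) * I))‖ = 1 := by
  rw [norm_mul, norm_neg, Complex.norm_I, one_mul, norm_div]
  have h1 : (1 - (m : ℂ) * I) = conj (1 + (m : ℂ) * I) := by
    simp [sub_eq_add_neg]
  rw [h1, Complex.norm_conj]
  exact div_self (norm_ne_zero_iff.mpr (one_add_ne m))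

theorem uu_norm (m : ℝ) (z : ℂ) : ‖uu m z‖ = ‖z‖ := by
  rw [uu, norm_mul, rho_norm, one_mul]

theorem one_sub_uu_ne {m : ℝ} {z : ℂ} (hz : ‖z‖ < 1) : 1 - uu m z ≠ 0 := by
  intro h
  have h1 : uu m z = 1 := by linear_combination -h
  have h2 := uu_norm m z
  rw [h1, norm_one] at h2
  linarith

theorem cay_im {m : ℝ} {z : ℂ} (hz : ‖z‖ < 1) : 0 < (cay m z).im := by
  have hne := one_sub_uu_ne (m := m) hz
  have h1 : (cay m z).im = ((1 + uu m z) / (1 - uu m z)).re := by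
    simp [cay]
  rw [h1]
  set u := uu m z with hu
  have hn : ‖u‖ < 1 := by rw [hu, uu_norm]; exact hz
  have h2 : ((1 + u) / (1 - u)).re = (1 - Complex.normSq u) / Complex.normSq (1 - u) := by
    rw [Complex.div_re]
    simp only [Complex.add_re, Complex.one_re, Complex.sub_re, Complex.add_im, Complex.one_im,
      Complex.sub_im, Complex.normSq_apply]
    ring
  rw [h2]
  apply div_pos
  · rw [Complex.normSq_eq_norm_sq]
    have := norm_nonneg u
    nlinarith
  · exact Complex.normSq_pos.mpr hne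

theorem cay_deriv {m : ℝ} {z : ℂ} (hz : ‖z‖ < 1) :
    HasDerivAt (cay m) (2 * ((1 + (m : ℂ) * I) / (1 - (m : ℂ) * I)) / (1 - uu m z) ^ 2) z := by
  have hne := one_sub_uu_ne (m := m) hz
  have h1 : HasDerivAt (uu m) (-I * ((1 + (m : ℂ) * I) / (1 - (m : ℂ) * I)) * 1) z :=
    (hasDerivAt_id z).const_mul _
  have h2 := ((((h1.const_add 1).div (h1.const_sub 1) hne).const_mul I).const_add 1)
  have e : I * ((-I * ((1 + (m : ℂ) * I) / (1 - (m : ℂ) * I)) * 1 * (1 - uu m z) -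
      (1 + uu m z) * -(-I * ((1 + (m : ℂ) * I) / (1 - (m : ℂ) * I)) * 1)) / (1 - uu m z) ^ 2) =
      2 * ((1 + (m : ℂ) * I) / (1 - (m : ℂ) * I)) / (1 - uu m z) ^ 2 := by
    have hI := Complex.I_mul_I
    set r := (1 + (m : ℂ) * I) / (1 - (m : ℂ) * I)
    rw [← mul_div_assoc]
    congr 1
    linear_combination (-2 * r) * hI
  rw [e] at h2
  exact h2

theorem cay_inj {m : ℝ} {z z' : ℂ} (hz : ‖z‖ < 1) (hz' : ‖z'‖ < 1) (h : cay m z = cay m z') :
    z = z' := by
  have h1 := one_sub_uu_ne (m := m) hz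
  have h2 := one_sub_uu_ne (m := m) hz'
  have h3 : (1 + uu m z) / (1 - uu m z) = (1 + uu m z') / (1 - uu m z') := by
    have : I * ((1 + uu m z) / (1 - uu m z)) = I * ((1 + uu m z') / (1 - uu m z')) := by
      have h' : 1 + I * ((1 + uu m z) / (1 - uu m z)) = 1 + I * ((1 + uu m z') / (1 - uu m z')) := h
      exact add_left_cancel h'
    exact mul_left_cancel₀ I_ne_zero this
  rw [div_eq_div_iff h1 h2] at h3
  have h4 : uu m z = uu m z' := by linear_combination h3 / 2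
  have h5 : -I * ((1 + (m : ℂ) * I) / (1 - (m : ℂ) * I)) ≠ 0 := by
    rw [← norm_ne_zero_iff, rho_norm]; norm_num
  exact mul_left_cancel₀ h5 h4

theorem cay_surj {m : ℝ} {w : ℂ} (hw : 0 < w.im) : ∃ z : ℂ, ‖z‖ < 1 ∧ cay m z = w := by
  set r := -I * ((1 + (m : ℂ) * I) / (1 - (m : ℂ) * I)) with hr
  have hr0 : r ≠ 0 := by rw [← norm_ne_zero_iff, hr, rho_norm]; norm_num
  have hd : w - 1 + I ≠ 0 := by
    intro h
    have := congrArg Complex.im h
    simp at this
    linarith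
  set u := (w - 1 - I) / (w - 1 + I) with hu
  have hun : ‖u‖ < 1 := by
    rw [hu, norm_div, div_lt_one (norm_pos_iff.mpr hd)]
    rw [← sq_lt_sq₀ (norm_nonneg _) (norm_nonneg _), ← Complex.normSq_eq_norm_sq,
      ← Complex.normSq_eq_norm_sq, Complex.normSq_apply, Complex.normSq_apply]
    simp only [Complex.sub_re, Complex.one_re, Complex.I_re, Complex.sub_im, Complex.one_im,
      Complex.I_im, Complex.add_re, Complex.add_im]
    nlinarith
  have huu : uu m (u / r) = u := by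
    rw [uu, ← hr]; field_simp
  have h1u : 1 - u ≠ 0 := by
    intro h
    have h1 : u = 1 := by linear_combination -h
    rw [h1, norm_one] at hun
    linarith
  refine ⟨u / r, ?_, ?_⟩
  · rw [norm_div, hr, rho_norm, div_one]; exact hun
  · rw [cay, huu]
    have e1 : 1 - u = 2 * I / (w - 1 + I) := by
      rw [hu]; field_simp; ring
    have e2 : 1 + u = 2 * (w - 1) / (w - 1 + I) := by
      rw [hu]; field_simp; ring
    rw [e1, e2]
    have hI : (I : ℂ) ≠ 0 := I_ne_zero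
    field_simp
    ring

theorem cay_image (m : ℝ) : cay m '' {z | ‖z‖ < 1} = {w | 0 < w.im} := by
  ext w
  constructor
  · rintro ⟨z, hz, rfl⟩
    exact cay_im hz
  · intro hw
    obtain ⟨z, hz, h⟩ := cay_surj (m := m) hw
    exact ⟨z, hz, h⟩

theorem uu_zero (m : ℝ) : uu m 0 = 0 := by simp [uu]

theorem cay_zero (m : ℝ) : cay m 0 = 1 + I := by simp [cay, uu_zero]

/-- The kernel in the disk. -/
def RR (c d : ℝ) (z : ℂ) : ℂ :=
  (-I * ((d : ℂ) + I * (c : ℂ)) + ((d : ℂ) - I * (c : ℂ)) * z) /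
    (-I * ((d : ℂ) + I * (c : ℂ)) - ((d : ℂ) - I * (c : ℂ)) * z)

theorem K_cay {m c d : ℝ} (hA : d - c * m ≠ 0) (hcd : d ≠ 0 ∨ c ≠ 0) {z : ℂ} (hz : ‖z‖ < 1) :
    K ((c + m * d) / (d - c * m)) (cay m z) = RR c d z := by
  have hu := one_sub_uu_ne (m := m) hz
  have hM := one_sub_ne m
  have hP := one_add_ne m
  have hI := Complex.I_mul_I
  have hA' : ((d : ℂ) - (c : ℂ) * (m : ℂ)) ≠ 0 := by exact_mod_cast hA
  -- the two conjugate numbers
  have hC : ((d : ℂ) + I * (c : ℂ)) ≠ 0 := by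
    intro h
    have h1 := congrArg Complex.re h
    have h2 := congrArg Complex.im h
    simp at h1 h2
    rcases hcd with h3 | h3
    · exact h3 h1
    · exact h3 h2
  have hconj : ((d : ℂ) - I * (c : ℂ)) = conj ((d : ℂ) + I * (c : ℂ)) := by
    simp [sub_eq_add_neg]
  have hden : -I * ((d : ℂ) + I * (c : ℂ)) - ((d : ℂ) - I * (c : ℂ)) * z ≠ 0 := by
    intro h
    have h1 : ((d : ℂ) - I * (c : ℂ)) * z = -I * ((d : ℂ) + I * (c : ℂ)) := by
      linear_combination -h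
    have h2 := congrArg norm h1
    rw [norm_mul, norm_mul, hconj, Complex.norm_conj, norm_neg, Complex.norm_I, one_mul] at h2
    have h3 : 0 < ‖((d : ℂ) + I * (c : ℂ))‖ := norm_pos_iff.mpr hC
    nlinarith
  set t : ℂ := (((c + m * d) / (d - c * m) : ℝ) : ℂ) with ht
  have htt : t = ((c : ℂ) + (m : ℂ) * (d : ℂ)) / ((d : ℂ) - (c : ℂ) * (m : ℂ)) := by
    rw [ht]; push_cast; rfl
  set A : ℂ := ((d : ℂ) - (c : ℂ) * (m : ℂ)) with hAd
  have t1 : t - I = -I * (((d : ℂ) + I * (c : ℂ)) * (1 + (m : ℂ) * I)) / A := by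
    rw [htt, eq_div_iff hA', sub_mul, div_mul_cancel₀ _ hA', hAd]
    linear_combination ((c : ℂ) + (d : ℂ) * (m : ℂ) + I * (c : ℂ) * (m : ℂ)) * hI
  have t2 : t + I = I * (((d : ℂ) - I * (c : ℂ)) * (1 - (m : ℂ) * I)) / A := by
    rw [htt, eq_div_iff hA', add_mul, div_mul_cancel₀ _ hA', hAd]
    linear_combination ((c : ℂ) + (d : ℂ) * (m : ℂ) - I * (c : ℂ) * (m : ℂ)) * hI
  have t3 : (t + I) * uu m z = ((d : ℂ) - I * (c : ℂ)) * (1 + (m : ℂ) * I) * z / A := by
    rw [t2, uu]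
    have e : I * (((d : ℂ) - I * (c : ℂ)) * (1 - (m : ℂ) * I)) / A *
        (-I * ((1 + (m : ℂ) * I) / (1 - (m : ℂ) * I)) * z) =
        -(I * I) * (((d : ℂ) - I * (c : ℂ)) * (1 + (m : ℂ) * I) * z / A) *
          ((1 - (m : ℂ) * I) / (1 - (m : ℂ) * I)) := by ring
    rw [e, hI, div_self hM]
    ring
  have hden2 : (t - I) - (t + I) * uu m z ≠ 0 := by
    have : (t - I) - (t + I) * uu m z =
        (1 + (m : ℂ) * I) / A * (-I * ((d : ℂ) + I * (c : ℂ)) - ((d : ℂ) - I * (c : ℂ)) * z) := by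
      rw [t3, t1]; ring
    rw [this]
    exact mul_ne_zero (div_ne_zero hP hA') hden
  have k1 : K ((c + m * d) / (d - c * m)) (cay m z) =
      ((t - I) + (t + I) * uu m z) / ((t - I) - (t + I) * uu m z) := by
    have e1 : (1 + t) - cay m z = ((t - I) - (t + I) * uu m z) / (1 - uu m z) := by
      rw [cay]; field_simp; ring
    rw [K, ← ht, e1]
    field_simp
    linear_combination (-(t + t * uu m z)) * hI
  rw [k1, RR]
  have e2 : (t - I) + (t + I) * uu m z =
        (1 + (m : ℂ) * I) / A * (-I * ((d : ℂ) + I * (c : ℂ)) + ((d : ℂ) - I * (c : ℂ)) * z) := by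
    rw [t3, t1]; ring
  have e3 : (t - I) - (t + I) * uu m z =
        (1 + (m : ℂ) * I) / A * (-I * ((d : ℂ) + I * (c : ℂ)) - ((d : ℂ) - I * (c : ℂ)) * z) := by
    rw [t3, t1]; ring
  rw [e2, e3, mul_div_mul_left _ _ (div_ne_zero hP hA')]

end

end Pool.Agent.TH221.HM
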