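import Pool.Agent.TH221.HM.Main

/-!
# The example
-/

open Complex Real Filter Topology ComplexConjugate

namespace Pool.Agent.TH221.HM

noncomputable section

theorem WW_re {a β : ℝ} {t ν : Fin 3 → ℝ} (r : ℝ) (w : ℂ) : (WW a β t ν r w).re =
    (Psi a β w).re + (ν 0 * (L a β (t 0) w).re + ν 1 * (L a β (t 1) w).re +
      ν 2 * (L a β (t 2) w).re) - r := by
  rw [WW, Complex.sub_re, Complex.add_re, Complex.re_sum, Fin.sum_univ_three]
  simp only [Complex.re_ofReal_mul, Complex.ofReal_re]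

/-- The coordinates of the three atoms. -/
def cc : Fin 3 → ℝ := ![1, -99, 1]

/-- The coordinates of the three atoms. -/
def dd : Fin 3 → ℝ := ![0, 100, 1]

/-- The atoms in the half plane. -/
def tt (m : ℝ) (k : Fin 3) : ℝ := (cc k + m * dd k) / (dd k - cc k * m)

theorem tt_a0 : tt (1 / 200) 0 = -200 := by norm_num [tt, cc, dd]
theorem tt_a1 : tt (1 / 200) 1 = -19700 / 20099 := by norm_num [tt, cc, dd]
theorem tt_a2 : tt (1 / 200) 2 = 201 / 199 := by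
  simp [tt, cc, dd]; norm_num
theorem tt_b0 : tt (1 / 100) 0 = -100 := by norm_num [tt, cc, dd]
theorem tt_b1 : tt (1 / 100) 1 = -9800 / 10099 := by norm_num [tt, cc, dd]
theorem tt_b2 : tt (1 / 100) 2 = 101 / 99 := by
  simp [tt, cc, dd]; norm_num

/-- The Herglotz function in the disk. -/
def QD (ν : Fin 3 → ℝ) (z : ℂ) : ℂ := 1 + ∑ k, (ν k : ℂ) * RR (cc k) (dd k) z

theorem QQ_cay {m : ℝ} (hm : ∀ k, dd k - cc k * m ≠ 0) (ν : Fin 3 → ℝ) {z : ℂ} (hz : ‖z‖ < 1) :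
    QQ (tt m) ν (cay m z) = QD ν z := by
  rw [QQ, QD]
  congr 1
  apply Finset.sum_congr rfl
  intro k _
  have h : dd k ≠ 0 ∨ cc k ≠ 0 := by
    fin_cases k
    · right; simp [cc]
    · left; simp [dd]
    · left; simp [dd]
  rw [tt, K_cay (hm k) h hz]

theorem RR_zero {c d : ℝ} (h : d ≠ 0 ∨ c ≠ 0) : RR c d 0 = 1 := by
  have hC : ((d : ℂ) + I * (c : ℂ)) ≠ 0 := by
    intro h0
    have h1 := congrArg Complex.re h0
    have h2 := congrArg Complex.im h0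
    simp at h1 h2
    rcases h with h3 | h3
    · exact h3 h1
    · exact h3 h2
  rw [RR, mul_zero, add_zero, sub_zero, div_self]
  exact mul_ne_zero (neg_ne_zero.mpr I_ne_zero) hC

theorem QD_zero (ν : Fin 3 → ℝ) : QD ν 0 = ((1 + (ν 0 + ν 1 + ν 2) : ℝ) : ℂ) := by
  rw [QD, Fin.sum_univ_three, RR_zero (Or.inr (by simp [cc])), RR_zero (Or.inl (by simp [dd])),
    RR_zero (Or.inl (by simp [dd]))]
  push_cast
  ring

theorem dPsi_base (a b : ℝ) : dPsi a (a + b) (1 + I) = ((b + 1 / 2 : ℝ) : ℂ) -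
    ((a + 1 / 2 : ℝ) : ℂ) * I := by
  have h1 : (1 : ℂ) / (1 + I) = (1 - I) / 2 := by
    have : (1 : ℂ) + I ≠ 0 := by
      intro h
      have := congrArg Complex.re h
      simp at this
    have hI := Complex.I_mul_I
    rw [div_eq_div_iff this two_ne_zero]
    linear_combination hI
  rw [dPsi, h1]
  push_cast
  ring

theorem base_pos {m a B : ℝ} (h : (a + 1 / 2) * (1 - m ^ 2) = 2 * m * B)
    (h1 : 1 - m ^ 2 ≠ 0) :
    (((B : ℝ) : ℂ) - ((a + 1 / 2 : ℝ) : ℂ) * I) * ((1 + (m : ℂ) * I) / (1 - (m : ℂ) * I)) =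
      ((B * (1 + m ^ 2) / (1 - m ^ 2) : ℝ) : ℂ) := by
  have hM := one_sub_ne m
  have hI := Complex.I_mul_I
  have h1' : (1 - (m : ℂ) ^ 2) ≠ 0 := by exact_mod_cast h1
  have ha : ((a + 1 / 2 : ℝ) : ℂ) = 2 * (m : ℂ) * (B : ℂ) / (1 - (m : ℂ) ^ 2) := by
    rw [eq_div_iff h1']
    have := congrArg (fun x : ℝ => (x : ℂ)) h
    push_cast at this ⊢
    linear_combination this
  rw [ha]
  push_cast
  rw [mul_div_assoc', div_eq_div_iff hM h1']
  have e : ((B : ℂ) - 2 * (m : ℂ) * (B : ℂ) / (1 - (m : ℂ) ^ 2) * I) * (1 + (m : ℂ) * I) *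
      (1 - (m : ℂ) ^ 2) = ((B : ℂ) * (1 - (m : ℂ) ^ 2) - 2 * (m : ℂ) * (B : ℂ) * I) *
        (1 + (m : ℂ) * I) := by
    field_simp
  rw [e]
  linear_combination (-2 * (B : ℂ) * (m : ℂ) ^ 2) * hI

end

end Pool.Agent.TH221.HM
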