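import Pool.Agent.TH221.HM.Univ

/-!
# The image of the shears is the plane without two rays
-/

open Complex Real Filter Topology

namespace Pool.Agent.TH221.HM

noncomputable section

variable {a β : ℝ} {W q : ℂ → ℂ} {τ1 τ2 : ℝ}

theorem Data.XX_bound (D : Data a β W q τ1 τ2) :
    ∃ c M : ℝ, 0 ≤ c ∧ 0 ≤ M ∧ ∀ v y : ℝ, 0 < y →
      |XX a β W v y - (Psi a β ⟨lev a β v y, y⟩).re - c * y| ≤ M * (1 + |v|) := by
  obtain ⟨c, M, hc, hM, h⟩ := D.bound
  refine ⟨c, M, hc, hM, ?_⟩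
  intro v y hy
  have h1 := h ⟨lev a β v y, y⟩ hy
  rw [lev_spec D.ha hy] at h1
  exact h1

theorem Data.upper (D : Data a β W q τ1 τ2) (v x : ℝ) : ∃ y : ℝ, 0 < y ∧ x ≤ XX a β W v y := by
  obtain ⟨c, M, hc, hM, h⟩ := D.XX_bound
  have ha := D.ha
  have hβ := D.hβ
  set R : ℝ := (|v| + β + π) / a with hR
  have hR0 : 0 ≤ R := by positivity
  set K : ℝ := a / 2 * R ^ 2 + β * R + M * (1 + |v|) with hK
  have hK0 : 0 ≤ K := by positivity
  set y : ℝ := 1 + 2 * (|x| + K) / a with hy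
  have hy1 : 1 ≤ y := by
    have : 0 ≤ 2 * (|x| + K) / a := by positivity
    linarith
  have hy0 : 0 < y := by linarith
  refine ⟨y, hy0, ?_⟩
  have h1 := h v y hy0
  have h2 := level_re_bound (β := β) ha (w := ⟨lev a β v y, y⟩) hy0
  rw [lev_spec ha hy0] at h2
  simp only [abs_of_pos hβ] at h2
  set t := lev a β v y with ht
  have h3 : |t| ≤ R := by
    rw [hR, le_div_iff₀ ha]
    have h4 : a * y * |t| ≤ (|v| + β + π) * y := by
      calc a * y * |t| ≤ |v| + β * y + π := h2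
        _ ≤ |v| * y + β * y + π * y := by
          have h5 : |v| * 1 ≤ |v| * y := by gcongr
          have h6 : π * 1 ≤ π * y := by gcongr
          linarith
        _ = _ := by ring
    have h7 : y * (|t| * a) ≤ y * (|v| + β + π) := by linarith
    exact le_of_mul_le_mul_left h7 hy0
  have h8 := Psi_re' a β (⟨t, y⟩ : ℂ)
  simp only at h8
  have h9 : 0 ≤ Real.log ‖(⟨t, y⟩ : ℂ)‖ := by
    apply Real.log_nonneg
    calc (1 : ℝ) ≤ y := hy1
      _ ≤ |(⟨t, y⟩ : ℂ).im| := le_abs_self _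
      _ ≤ _ := Complex.abs_im_le_norm _
  have h10 : t ^ 2 ≤ R ^ 2 := by
    rw [← sq_abs t]; gcongr
  have h11 : -(β * R) ≤ β * t := by
    have := (abs_le.mp h3).1
    nlinarith
  have h12 := (abs_le.mp h1).1
  have h13 : a / 2 * y ^ 2 ≥ |x| + K := by
    have h14 : y ≤ y ^ 2 := by nlinarith
    have h15 : a / 2 * y ≥ |x| + K := by
      rw [hy]
      have : a / 2 * (1 + 2 * (|x| + K) / a) = a / 2 + (|x| + K) := by field_simp
      rw [this]; linarith
    nlinarith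
  have h16 : 0 ≤ c * y := by positivity
  have h17 := le_abs_self x
  have h18 : (Psi a β ⟨t, y⟩).re ≥ a / 2 * y ^ 2 - a / 2 * R ^ 2 - β * R := by
    rw [h8]
    nlinarith
  linarith

theorem ell_polar {r θ : ℝ} (hr : 0 < r) (h0 : 0 < θ) (h1 : θ < π) :
    (ell ⟨r * Real.cos θ, r * Real.sin θ⟩).im = θ := by
  have h2 : (-I * (⟨r * Real.cos θ, r * Real.sin θ⟩ : ℂ)) =
      (r : ℂ) * (Complex.cos ((θ - π / 2 : ℝ) : ℂ) + Complex.sin ((θ - π / 2 : ℝ) : ℂ) * I) := by
    rw [← Complex.ofReal_cos, ← Complex.ofReal_sin, Real.cos_sub_pi_div_two,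
      Real.sin_sub_pi_div_two]
    apply Complex.ext
    · simp only [Complex.mul_re, Complex.mul_im, Complex.neg_re, Complex.neg_im, Complex.I_re,
        Complex.I_im, Complex.add_re, Complex.add_im, Complex.ofReal_re, Complex.ofReal_im]
      ring
    · simp only [Complex.mul_re, Complex.mul_im, Complex.neg_re, Complex.neg_im, Complex.I_re,
        Complex.I_im, Complex.add_re, Complex.add_im, Complex.ofReal_re, Complex.ofReal_im]
      ring
  rw [ell_im, h2, Complex.arg_mul_cos_add_sin_mul_I hr ⟨by linarith, by linarith⟩]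
  ring

theorem lowU_neg {a β : ℝ} (ha : 0 < a) (hβ : 0 < β) {v : ℝ} (hv : v < 0) (N : ℝ) :
    ∃ w : ℂ, 0 < w.im ∧ w.im ≤ 1 ∧ (Psi a β w).im = v ∧ (Psi a β w).re ≤ -N := by
  set P : ℝ := 2 * (β + 2) / a + |N| + a / 2 with hP
  have hP0 : 0 < P := by positivity
  set y : ℝ := min 1 (-v / (a * P)) with hy
  have hy0 : 0 < y := lt_min one_pos (div_pos (by linarith) (by positivity))
  refine ⟨⟨lev a β v y, y⟩, hy0, min_le_left _ _, lev_spec ha hy0 v, ?_⟩
  set x := lev a β v y with hx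
  have h1 := lev_spec (β := β) ha hy0 v
  rw [Psi_im] at h1
  have h2 := ell_im_pos (w := ⟨lev a β v y, y⟩) hy0
  have h3 : a * y * x ≥ -v := by
    have : 0 ≤ β * y := by positivity
    rw [← hx] at h1
    nlinarith
  have h4 : y * (a * P) ≤ -v := by
    have := min_le_right 1 (-v / (a * P))
    rw [← hy, le_div_iff₀ (by positivity)] at this
    exact this
  have h5 : P ≤ x := by
    have : a * y * P ≤ a * y * x := by nlinarith
    exact le_of_mul_le_mul_left this (by positivity)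
  have h8 := Psi_re' a β (⟨x, y⟩ : ℂ)
  simp only at h8
  have hx0 : 0 < x := lt_of_lt_of_le hP0 h5
  have hy1 : y ≤ 1 := min_le_left _ _
  have h9 : Real.log ‖(⟨x, y⟩ : ℂ)‖ ≤ x := by
    have hn : 0 < ‖(⟨x, y⟩ : ℂ)‖ := by
      apply norm_pos_iff.mpr
      intro h
      have := congrArg Complex.re h
      simp at this; linarith
    have h10 : ‖(⟨x, y⟩ : ℂ)‖ ≤ x + 1 := by
      calc ‖(⟨x, y⟩ : ℂ)‖ ≤ |x| + |y| := Complex.norm_le_abs_re_add_abs_im _
        _ ≤ x + 1 := by rw [abs_of_pos hx0, abs_of_pos hy0]; linarith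
    have := Real.log_le_sub_one_of_pos hn
    linarith
  rw [h8]
  have h11 : a * x ≥ 2 * (β + 2) := by
    have : a * P ≥ 2 * (β + 2) := by
      rw [hP]
      have e : a * (2 * (β + 2) / a + |N| + a / 2) = 2 * (β + 2) + a * |N| + a * (a / 2) := by
        field_simp
      rw [e]
      have : 0 ≤ a * |N| := by positivity
      have : 0 ≤ a * (a / 2) := by positivity
      linarith
    nlinarith
  have h12 : x ≥ |N| + a / 2 := by
    have : 0 ≤ 2 * (β + 2) / a := by positivity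
    linarith
  have h13 := le_abs_self N
  have h14 : y ^ 2 ≤ 1 := by nlinarith
  have h15 : a * x * x ≥ 2 * (β + 2) * x := by nlinarith
  have h16 : a / 2 * y ^ 2 ≤ a / 2 * 1 := by gcongr
  nlinarith

theorem lowU_big {a β : ℝ} (ha : 0 < a) (hβ : 0 < β) {v : ℝ} (hv : π < v) (N : ℝ) :
    ∃ w : ℂ, 0 < w.im ∧ w.im ≤ 1 ∧ (Psi a β w).im = v ∧ (Psi a β w).re ≤ -N := by
  set P : ℝ := 2 * (β + 2) / a + |N| + a / 2 with hP
  have hP0 : 0 < P := by positivity
  have hvp : 0 < v - π := by linarith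
  set y : ℝ := min 1 (min ((v - π) / (2 * β)) ((v - π) / (2 * (a * P)))) with hy
  have hy0 : 0 < y := lt_min one_pos (lt_min (by positivity) (by positivity))
  refine ⟨⟨lev a β v y, y⟩, hy0, min_le_left _ _, lev_spec ha hy0 v, ?_⟩
  set x := lev a β v y with hx
  have h1 := lev_spec (β := β) ha hy0 v
  rw [Psi_im] at h1
  rw [← hx] at h1
  have h2 := ell_im_lt (w := ⟨x, y⟩) hy0
  have hy2 : y * (2 * β) ≤ v - π := by
    have h := (min_le_right 1 (min ((v - π) / (2 * β)) ((v - π) / (2 * (a * P))))).trans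
      (min_le_left _ _)
    rw [← hy, le_div_iff₀ (by positivity)] at h
    exact h
  have hy3 : y * (2 * (a * P)) ≤ v - π := by
    have h := (min_le_right 1 (min ((v - π) / (2 * β)) ((v - π) / (2 * (a * P))))).trans
      (min_le_right _ _)
    rw [← hy, le_div_iff₀ (by positivity)] at h
    exact h
  have h3 : a * y * (-x) ≥ (v - π) / 2 := by nlinarith
  have h5 : P ≤ -x := by
    have : a * y * P ≤ a * y * (-x) := by nlinarith
    exact le_of_mul_le_mul_left this (by positivity)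
  have h8 := Psi_re' a β (⟨x, y⟩ : ℂ)
  simp only at h8
  have hx0 : 0 < -x := lt_of_lt_of_le hP0 h5
  have hy1 : y ≤ 1 := min_le_left _ _
  have h9 : Real.log ‖(⟨x, y⟩ : ℂ)‖ ≤ -x := by
    have hn : 0 < ‖(⟨x, y⟩ : ℂ)‖ := by
      apply norm_pos_iff.mpr
      intro h
      have := congrArg Complex.re h
      simp at this; linarith
    have h10 : ‖(⟨x, y⟩ : ℂ)‖ ≤ -x + 1 := by
      calc ‖(⟨x, y⟩ : ℂ)‖ ≤ |x| + |y| := Complex.norm_le_abs_re_add_abs_im _
        _ ≤ -x + 1 := by rw [abs_of_neg (by linarith : x < 0), abs_of_pos hy0]; linarith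
    have := Real.log_le_sub_one_of_pos hn
    linarith
  rw [h8]
  have h11 : a * (-x) ≥ 2 * (β + 2) := by
    have : a * P ≥ 2 * (β + 2) := by
      rw [hP]
      have e : a * (2 * (β + 2) / a + |N| + a / 2) = 2 * (β + 2) + a * |N| + a * (a / 2) := by
        field_simp
      rw [e]
      have : 0 ≤ a * |N| := by positivity
      have : 0 ≤ a * (a / 2) := by positivity
      linarith
    nlinarith
  have h12 : -x ≥ |N| + a / 2 := by
    have : 0 ≤ 2 * (β + 2) / a := by positivity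
    linarith
  have h13 := le_abs_self N
  have h14 : y ^ 2 ≤ 1 := by nlinarith
  have h15 : a * (-x) * (-x) ≥ 2 * (β + 2) * (-x) := by nlinarith
  have h16 : a / 2 * y ^ 2 ≤ a / 2 * 1 := by gcongr
  nlinarith

theorem lowU_mid {a β : ℝ} (ha : 0 < a) (hβ : 0 < β) {v : ℝ} (hv0 : 0 < v) (hv : v < π) (N : ℝ) :
    ∃ w : ℂ, 0 < w.im ∧ w.im ≤ 1 ∧ (Psi a β w).im = v ∧ (Psi a β w).re ≤ -N := by
  set r : ℝ := Real.exp (-(|N| + a / 2 + β)) with hr
  have hr0 : 0 < r := Real.exp_pos _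
  have hr1 : r ≤ 1 := Real.exp_le_one_iff.mpr (by
    have := abs_nonneg N
    linarith)
  have hcont : Continuous (fun θ : ℝ => -(a * (r * Real.cos θ) * (r * Real.sin θ)) +
      β * (r * Real.sin θ) + θ) := by fun_prop
  have hmem : v ∈ Set.Ioo ((fun θ : ℝ => -(a * (r * Real.cos θ) * (r * Real.sin θ)) +
      β * (r * Real.sin θ) + θ) 0) ((fun θ : ℝ => -(a * (r * Real.cos θ) * (r * Real.sin θ)) +
      β * (r * Real.sin θ) + θ) π) := by
    simp only [Real.sin_zero, Real.sin_pi, mul_zero, neg_zero, zero_add]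
    exact ⟨hv0, hv⟩
  obtain ⟨θ, ⟨hθ0, hθ1⟩, hθ⟩ := intermediate_value_Ioo Real.pi_pos.le hcont.continuousOn hmem
  simp only at hθ
  have hsin := Real.sin_pos_of_pos_of_lt_pi hθ0 hθ1
  have hs1 := Real.sin_le_one θ
  refine ⟨⟨r * Real.cos θ, r * Real.sin θ⟩, by positivity, ?_, ?_, ?_⟩
  · show r * Real.sin θ ≤ 1
    nlinarith
  · rw [Psi_im, ell_polar hr0 hθ0 hθ1]
    exact hθ
  · rw [Psi_re']
    simp only
    have hn : ‖(⟨r * Real.cos θ, r * Real.sin θ⟩ : ℂ)‖ = r := by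
      rw [Complex.norm_eq_sqrt_sq_add_sq]
      simp only
      have : (r * Real.cos θ) ^ 2 + (r * Real.sin θ) ^ 2 = r ^ 2 := by
        have := Real.sin_sq_add_cos_sq θ
        nlinarith
      rw [this, Real.sqrt_sq hr0.le]
    rw [hn, hr, Real.log_exp, ← hr]
    have h1 : (r * Real.sin θ) ^ 2 ≤ 1 := by
      have h2 : r * Real.sin θ ≤ 1 := by nlinarith
      have h3 : 0 ≤ r * Real.sin θ := by positivity
      nlinarith
    have h4 : β * (r * Real.cos θ) ≤ β := by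
      have h5 : r * Real.cos θ ≤ 1 := by
        have := Real.cos_le_one θ
        nlinarith
      nlinarith
    have h6 : 0 ≤ (r * Real.cos θ) ^ 2 := by positivity
    have h7 : 0 ≤ a * (r * Real.cos θ) ^ 2 := by positivity
    have h8 : a * (r * Real.sin θ) ^ 2 ≤ a * 1 := by gcongr
    have h9 := le_abs_self N
    nlinarith

theorem Data.lower (D : Data a β W q τ1 τ2) {v : ℝ} (h0 : v ≠ 0) (hπ : v ≠ π) (x : ℝ) :
    ∃ y : ℝ, 0 < y ∧ XX a β W v y ≤ x := by
  obtain ⟨c, M, hc, hM, h⟩ := D.XX_bound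
  have key : ∃ w : ℂ, 0 < w.im ∧ w.im ≤ 1 ∧ (Psi a β w).im = v ∧
      (Psi a β w).re ≤ -(c + M * (1 + |v|) - x) := by
    rcases lt_trichotomy v 0 with h1 | h1 | h1
    · exact lowU_neg D.ha D.hβ h1 _
    · exact absurd h1 h0
    · rcases lt_trichotomy v π with h2 | h2 | h2
      · exact lowU_mid D.ha D.hβ h1 h2 _
      · exact absurd h2 hπ
      · exact lowU_big D.ha D.hβ h2 _
  obtain ⟨w, hw0, hw1, hw2, hw3⟩ := key
  refine ⟨w.im, hw0, ?_⟩
  have h1 := h v w.im hw0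
  rw [← lev_unique D.ha hw0 hw2] at h1
  have h2 := (abs_le.mp h1).2
  have h3 : c * w.im ≤ c * 1 := by gcongr
  linarith

/-- The derivative of the imaginary part in the vertical direction at a real point. -/
theorem Psi_im_vert (a β : ℝ) {x : ℝ} (hx : x ≠ 0) :
    HasDerivAt (fun y : ℝ => (Psi a β ⟨x, y⟩).im) (-a * x + β + 1 / x) 0 := by
  have h1 : HasDerivAt (Psi a β) (dPsi a β ⟨x, 0⟩) (⟨x, 0⟩ : ℂ) :=
    (Psi_strict a β (w := ⟨x, 0⟩) (Or.inr hx)).hasDerivAt
  have h2 : HasDerivAt (fun y : ℝ => (⟨x, y⟩ : ℂ)) I 0 := by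
    have : (fun y : ℝ => (⟨x, y⟩ : ℂ)) = fun y : ℝ => (x : ℂ) + (y : ℂ) * I := by
      funext y
      exact Complex.mk_eq_add_mul_I x y
    rw [this]
    simpa using ((Complex.ofRealCLM.hasDerivAt (x := (0 : ℝ))).mul_const I).const_add (x : ℂ)
  have h3 : HasDerivAt (fun y : ℝ => Psi a β ⟨x, y⟩) (dPsi a β ⟨x, 0⟩ * I) 0 := by
    have := HasDerivAt.scomp (0 : ℝ) h1 h2
    simpa [Function.comp_def, mul_comm] using this
  have h4 := (Complex.imCLM.hasFDerivAt.comp_hasDerivAt (0 : ℝ) h3)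
  have h5 : (dPsi a β ⟨x, 0⟩ * I).im = -a * x + β + 1 / x := by
    have : (⟨x, 0⟩ : ℂ) = (x : ℂ) := rfl
    rw [Complex.mul_I_im, this, dPsi]
    have h6 : (1 / (x : ℂ)) = ((1 / x : ℝ) : ℂ) := by push_cast; rfl
    rw [h6]
    simp
  rw [← h5]
  simpa [Function.comp_def] using h4

/-- The level curve ends at the tip. -/
theorem lev_tip {a β : ℝ} (ha : 0 < a) {τ : ℝ} (hτ : τ ≠ 0) (hroot : -a * τ + β + 1 / τ = 0) {δ : ℝ}
    (hδ : 0 < δ) : ∀ᶠ y in 𝓝[>] (0 : ℝ), |lev a β (ell τ).im y - τ| < δ := by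
  set δ' : ℝ := min δ (|τ| / 2) with hδ'
  have hτ0 : 0 < |τ| := abs_pos.mpr hτ
  have hδ'0 : 0 < δ' := lt_min hδ (by linarith)
  have hδ'2 : δ' ≤ |τ| / 2 := min_le_right _ _
  -- sign facts
  have hsame : ∀ x : ℝ, |x - τ| ≤ δ' → (x ≠ 0 ∧ (ell (x : ℂ)).im = (ell (τ : ℂ)).im) := by
    intro x hx
    have h1 := abs_le.mp hx
    rcases lt_or_gt_of_ne hτ with h | h
    · rw [abs_of_neg h] at hδ'2
      have : x < 0 := by linarith
      exact ⟨this.ne, by rw [ell_im_real_neg this, ell_im_real_neg h]⟩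
    · rw [abs_of_pos h] at hδ'2
      have : 0 < x := by linarith
      exact ⟨this.ne', by rw [ell_im_real_pos this, ell_im_real_pos h]⟩
  have hinv : ∀ x : ℝ, |x - τ| ≤ δ' → (x > τ → 1 / x < 1 / τ) ∧ (x < τ → 1 / τ < 1 / x) := by
    intro x hx
    have h1 := abs_le.mp hx
    rcases lt_or_gt_of_ne hτ with h | h
    · rw [abs_of_neg h] at hδ'2
      have h2 : x < 0 := by linarith
      exact ⟨fun h3 => one_div_lt_one_div_of_neg_of_lt h2 h3,
        fun h3 => one_div_lt_one_div_of_neg_of_lt h h3⟩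
    · rw [abs_of_pos h] at hδ'2
      have h2 : 0 < x := by linarith
      exact ⟨fun h3 => one_div_lt_one_div_of_lt h h3, fun h3 => one_div_lt_one_div_of_lt h2 h3⟩
  have hp : |τ + δ' - τ| ≤ δ' := by
    rw [add_sub_cancel_left, abs_of_pos hδ'0]
  have hm : |τ - δ' - τ| ≤ δ' := by
    have : τ - δ' - τ = -δ' := by ring
    rw [this, abs_neg, abs_of_pos hδ'0]
  have d1 := Psi_im_vert a β (hsame _ hp).1
  have d2 := Psi_im_vert a β (hsame _ hm).1
  have n1 : -a * (τ + δ') + β + 1 / (τ + δ') < 0 := by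
    have := (hinv _ hp).1 (by linarith)
    nlinarith
  have n2 : 0 < -a * (τ - δ') + β + 1 / (τ - δ') := by
    have := (hinv _ hm).2 (by linarith)
    nlinarith
  have z1 : (Psi a β ⟨τ + δ', 0⟩).im = (ell (τ : ℂ)).im := by
    rw [Psi_im, ← (hsame _ hp).2]
    have : (⟨τ + δ', 0⟩ : ℂ) = ((τ + δ' : ℝ) : ℂ) := rfl
    rw [this]; ring
  have z2 : (Psi a β ⟨τ - δ', 0⟩).im = (ell (τ : ℂ)).im := by
    rw [Psi_im, ← (hsame _ hm).2]
    have : (⟨τ - δ', 0⟩ : ℂ) = ((τ - δ' : ℝ) : ℂ) := rfl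
    rw [this]; ring
  have e1 := eventually_gt_of_deriv_pos d1.neg (by linarith : 0 < -(-a * (τ + δ') + β + 1 / (τ + δ')))
  have e2 := eventually_gt_of_deriv_pos d2 n2
  filter_upwards [e1, e2, self_mem_nhdsWithin] with y f1 f2 hy
  have hy0 : (0 : ℝ) < y := hy
  have hs : (Psi a β ⟨lev a β (ell (τ : ℂ)).im y, y⟩).im = (ell (τ : ℂ)).im := lev_spec ha hy0 _
  simp only [Pi.neg_apply] at f1
  rw [z1] at f1
  rw [z2] at f2
  have g1 : lev a β (ell (τ : ℂ)).im y < τ + δ' := by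
    by_contra hcon
    push Not at hcon
    have := (Psi_im_anti (β := β) ha hy0).antitone hcon
    linarith
  have g2 : τ - δ' < lev a β (ell (τ : ℂ)).im y := by
    by_contra hcon
    push Not at hcon
    have := (Psi_im_anti (β := β) ha hy0).antitone hcon
    linarith
  have hd : δ' ≤ δ := min_le_left _ _
  rw [abs_lt]
  constructor <;> linarith

theorem tip_tendsto (ha : 0 < a) {τ : ℝ} (hτ : τ ≠ 0) (hroot : -a * τ + β + 1 / τ = 0)
    (hc : ContinuousAt W τ) :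
    Tendsto (XX a β W (ell (τ : ℂ)).im) (𝓝[>] (0 : ℝ)) (𝓝 (W τ).re) := by
  have h1 : Tendsto (lev a β (ell (τ : ℂ)).im) (𝓝[>] (0 : ℝ)) (𝓝 τ) := by
    rw [Metric.tendsto_nhds]
    intro ε hε
    filter_upwards [lev_tip ha hτ hroot hε] with y hy
    rw [Real.dist_eq]; exact hy
  have h2 : Tendsto (fun y : ℝ => (⟨lev a β (ell (τ : ℂ)).im y, y⟩ : ℂ)) (𝓝[>] (0 : ℝ))
      (𝓝 (τ : ℂ)) := by
    have : (fun y : ℝ => (⟨lev a β (ell (τ : ℂ)).im y, y⟩ : ℂ)) =
        fun y : ℝ => ((lev a β (ell (τ : ℂ)).im y : ℝ) : ℂ) + (y : ℂ) * I := by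
      funext y
      exact Complex.mk_eq_add_mul_I _ _
    rw [this]
    have h3 : Tendsto (fun y : ℝ => (y : ℂ) * I) (𝓝[>] (0 : ℝ)) (𝓝 (((0 : ℝ) : ℂ) * I)) := by
      have : Continuous (fun y : ℝ => (y : ℂ) * I) := by fun_prop
      exact (this.tendsto 0).mono_left nhdsWithin_le_nhds
    have h4 := ((Complex.continuous_ofReal.tendsto τ).comp h1).add h3
    simpa using h4
  exact ((Complex.continuous_re.tendsto _).comp hc.tendsto).comp h2

theorem Data.tip_lt (D : Data a β W q τ1 τ2) {τ : ℝ} (hτ : τ ≠ 0)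
    (hroot : -a * τ + β + 1 / τ = 0) (hc : ContinuousAt W τ) {y : ℝ} (hy : 0 < y) :
    (W τ).re < XX a β W (ell (τ : ℂ)).im y := by
  have h1 := tip_tendsto (W := W) D.ha hτ hroot hc
  have h2 : (W τ).re ≤ XX a β W (ell (τ : ℂ)).im (y / 2) := by
    apply le_of_tendsto h1
    have : ∀ᶠ s in 𝓝[>] (0 : ℝ), s < y / 2 :=
      (gt_mem_nhds (by linarith : (0 : ℝ) < y / 2)).filter_mono nhdsWithin_le_nhds
    filter_upwards [this, self_mem_nhdsWithin] with s hs hs0
    exact (D.XX_mono _ hs0 hs).le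
  exact lt_of_le_of_lt h2 (D.XX_mono _ (by linarith) (by linarith))

/-- The plane without two rays. -/
def Om (x1 x2 : ℝ) : Set ℂ := {z | (z.im = 0 → x2 < z.re) ∧ (z.im = π → x1 < z.re)}

theorem Data.image (D : Data a β W q τ1 τ2) :
    shear a β W '' {w | 0 < w.im} = Om (W τ1).re (W τ2).re := by
  have e1 : (ell (τ1 : ℂ)).im = π := ell_im_real_neg D.t1
  have e2 : (ell (τ2 : ℂ)).im = 0 := ell_im_real_pos D.t2
  ext z
  constructor
  · rintro ⟨w, hw, rfl⟩
    have hw0 : 0 < w.im := hw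
    have hX : (W w).re = XX a β W (Psi a β w).im w.im := by
      rw [XX, ← lev_unique D.ha hw0 rfl]
    refine ⟨fun h => ?_, fun h => ?_⟩
    · have h' : (Psi a β w).im = 0 := h
      show (W τ2).re < (W w).re
      rw [hX, h']
      have := D.tip_lt D.t2.ne' D.r2 D.c2 hw0
      rwa [e2] at this
    · have h' : (Psi a β w).im = π := h
      show (W τ1).re < (W w).re
      rw [hX, h']
      have := D.tip_lt D.t1.ne D.r1 D.c1 hw0
      rwa [e1] at this
  · rintro ⟨h0, hπ⟩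
    obtain ⟨y2, hy2, hu⟩ := D.upper z.im z.re
    have hlow : ∃ y : ℝ, 0 < y ∧ XX a β W z.im y ≤ z.re := by
      by_cases c0 : z.im = 0
      · have h1 := tip_tendsto (W := W) D.ha D.t2.ne' D.r2 D.c2
        rw [e2] at h1
        have h2 := h1.eventually_lt_const (h0 c0)
        obtain ⟨y, hy, hy0⟩ := (h2.and self_mem_nhdsWithin).exists
        rw [c0]
        exact ⟨y, hy0, hy.le⟩
      · by_cases cπ : z.im = π
        · have h1 := tip_tendsto (W := W) D.ha D.t1.ne D.r1 D.c1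
          rw [e1] at h1
          have h2 := h1.eventually_lt_const (hπ cπ)
          obtain ⟨y, hy, hy0⟩ := (h2.and self_mem_nhdsWithin).exists
          rw [cπ]
          exact ⟨y, hy0, hy.le⟩
        · exact D.lower c0 cπ z.re
    obtain ⟨y1, hy1, hl⟩ := hlow
    have hmem : z.re ∈ (XX a β W z.im) '' (Set.Ioi 0) :=
      isPreconnected_Ioi.intermediate_value (Set.mem_Ioi.mpr hy1) (Set.mem_Ioi.mpr hy2)
        (D.XX_cont z.im) ⟨hl, hu⟩
    obtain ⟨y, hy, hxy⟩ := hmem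
    refine ⟨⟨lev a β z.im y, y⟩, hy, ?_⟩
    apply Complex.ext
    · exact hxy
    · exact lev_spec D.ha hy z.im

end

end Pool.Agent.TH221.HM
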