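import Mathlib

/-!
# The branch of the logarithm on the upper half plane which is analytic up to the boundary
-/

open Complex Real

namespace Pool.Agent.TH221.HM

noncomputable section

/-- The branch of the logarithm with imaginary part in `(0, π)` on the upper half plane. -/
def ell (w : ℂ) : ℂ := Complex.log (-I * w) + (π / 2 : ℝ) * I

/-- The region where `ell` is analytic (it contains the closed upper half plane without `0`). -/
def good (w : ℂ) : Prop := 0 < w.im ∨ w.re ≠ 0

theorem negI_re (w : ℂ) : (-I * w).re = w.im := by simp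

theorem negI_im (w : ℂ) : (-I * w).im = -w.re := by simp

theorem good_slit {w : ℂ} (h : good w) : -I * w ∈ slitPlane := by
  rw [Complex.mem_slitPlane_iff, negI_re, negI_im]
  rcases h with h | h
  · exact Or.inl h
  · exact Or.inr (neg_ne_zero.mpr h)

theorem good_ne {w : ℂ} (h : good w) : w ≠ 0 := by
  rintro rfl
  rcases h with h | h <;> simp at h

theorem ell_strict {w : ℂ} (h : good w) : HasStrictDerivAt ell (1 / w) w := by
  have h1 : HasStrictDerivAt (fun w : ℂ => -I * w) (-I * 1) w :=
    (hasStrictDerivAt_id w).const_mul (-I)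
  have h2 := (h1.clog (good_slit h)).add_const (((π / 2 : ℝ) : ℂ) * I)
  have h3 : -I * 1 / (-I * w) = 1 / w := by
    have := good_ne h
    have hI : (I : ℂ) ≠ 0 := I_ne_zero
    field_simp
  rw [h3] at h2
  exact h2

theorem ell_im (w : ℂ) : (ell w).im = Complex.arg (-I * w) + π / 2 := by
  simp [ell, Complex.log_im]

theorem ell_re (w : ℂ) : (ell w).re = Real.log ‖w‖ := by
  simp [ell, Complex.log_re]

theorem ell_im_pos {w : ℂ} (h : 0 < w.im) : 0 < (ell w).im := by
  rw [ell_im]
  have := (Complex.abs_arg_lt_pi_div_two_iff (z := -I * w)).mpr (Or.inl (by rw [negI_re]; exact h))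
  have := (abs_lt.mp this).1
  linarith

theorem ell_im_lt {w : ℂ} (h : 0 < w.im) : (ell w).im < π := by
  rw [ell_im]
  have := (Complex.abs_arg_lt_pi_div_two_iff (z := -I * w)).mpr (Or.inl (by rw [negI_re]; exact h))
  have := (abs_lt.mp this).2
  linarith

theorem ell_im_real_pos {x : ℝ} (h : 0 < x) : (ell (x : ℂ)).im = 0 := by
  have h1 : (-I * (x : ℂ)) = (x : ℂ) * (-I) := by ring
  rw [ell_im, h1, Complex.arg_real_mul _ h, Complex.arg_neg_I]
  ring

theorem ell_im_real_neg {x : ℝ} (h : x < 0) : (ell (x : ℂ)).im = π := by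
  have h1 : (-I * (x : ℂ)) = ((-x : ℝ) : ℂ) * I := by push_cast; ring
  rw [ell_im, h1, Complex.arg_real_mul _ (by linarith), Complex.arg_I]
  ring

theorem ell_im_base (t : ℝ) : (ell (-(t : ℂ) + I)).im = π / 2 + Real.arctan t := by
  have h1 : (-I * (-(t : ℂ) + I)) = 1 + (t : ℂ) * I := by
    have := Complex.I_mul_I
    linear_combination (-1 : ℂ) * this
  rw [ell_im, h1]
  have h2 : Complex.arg (1 + (t : ℂ) * I) = Real.arctan t := by
    have h3 : Complex.arg (1 + (t : ℂ) * I) = Real.arcsin ((1 + (t : ℂ) * I).im / ‖(1 + (t : ℂ) * I)‖) :=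
      Complex.arg_of_re_nonneg (by simp)
    rw [h3, Real.arctan_eq_arcsin]
    congr 1
    have h4 : ‖(1 + (t : ℂ) * I)‖ = √(1 + t ^ 2) := by
      rw [Complex.norm_eq_sqrt_sq_add_sq]
      simp
    rw [h4]
    simp
  rw [h2]
  ring

end

end Pool.Agent.TH221.HM
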