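import Mathlib

/-!
# The numerical data of the example
-/

open Real

namespace Pool.Agent.TH221.HM

noncomputable section

theorem arctan_lower {x : ℝ} (hx : 0 ≤ x) : x - x ^ 3 / 3 + x ^ 5 / 5 - x ^ 7 / 7 ≤ arctan x := by
  have hd : ∀ y : ℝ, HasDerivAt (fun x : ℝ => arctan x - (x - x ^ 3 / 3 + x ^ 5 / 5 - x ^ 7 / 7))
      (y ^ 8 / (1 + y ^ 2)) y := by
    intro y
    have h1 := Real.hasDerivAt_arctan y
    have h2 : HasDerivAt (fun x : ℝ => x - x ^ 3 / 3 + x ^ 5 / 5 - x ^ 7 / 7)
        (1 - (3 * y ^ 2) / 3 + (5 * y ^ 4) / 5 - (7 * y ^ 6) / 7) y := by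
      have e3 : HasDerivAt (fun x : ℝ => x ^ 3 / 3) ((3 * y ^ 2) / 3) y := by
        simpa using (hasDerivAt_pow 3 y).div_const 3
      have e5 : HasDerivAt (fun x : ℝ => x ^ 5 / 5) ((5 * y ^ 4) / 5) y := by
        simpa using (hasDerivAt_pow 5 y).div_const 5
      have e7 : HasDerivAt (fun x : ℝ => x ^ 7 / 7) ((7 * y ^ 6) / 7) y := by
        simpa using (hasDerivAt_pow 7 y).div_const 7
      exact (((hasDerivAt_id y).sub e3).add e5).sub e7
    have h3 := h1.sub h2
    have h4 : 1 / (1 + y ^ 2) - (1 - (3 * y ^ 2) / 3 + (5 * y ^ 4) / 5 - (7 * y ^ 6) / 7) =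
        y ^ 8 / (1 + y ^ 2) := by
      have : 1 + y ^ 2 ≠ 0 := by positivity
      field_simp
      ring
    rw [h4] at h3
    exact h3
  have hm : Monotone (fun x : ℝ => arctan x - (x - x ^ 3 / 3 + x ^ 5 / 5 - x ^ 7 / 7)) := by
    apply monotone_of_deriv_nonneg (fun y => (hd y).differentiableAt)
    intro y
    rw [(hd y).deriv]
    positivity
  have := hm hx
  simp only [arctan_zero] at this
  norm_num at this
  linarith

theorem arctan_upper {x : ℝ} (hx : 0 ≤ x) : arctan x ≤ x - x ^ 3 / 3 + x ^ 5 / 5 := by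
  have hd : ∀ y : ℝ, HasDerivAt (fun x : ℝ => (x - x ^ 3 / 3 + x ^ 5 / 5) - arctan x)
      (y ^ 6 / (1 + y ^ 2)) y := by
    intro y
    have h1 := Real.hasDerivAt_arctan y
    have h2 : HasDerivAt (fun x : ℝ => x - x ^ 3 / 3 + x ^ 5 / 5)
        (1 - (3 * y ^ 2) / 3 + (5 * y ^ 4) / 5) y := by
      have e3 : HasDerivAt (fun x : ℝ => x ^ 3 / 3) ((3 * y ^ 2) / 3) y := by
        simpa using (hasDerivAt_pow 3 y).div_const 3
      have e5 : HasDerivAt (fun x : ℝ => x ^ 5 / 5) ((5 * y ^ 4) / 5) y := by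
        simpa using (hasDerivAt_pow 5 y).div_const 5
      exact ((hasDerivAt_id y).sub e3).add e5
    have h3 := h2.sub h1
    have h4 : (1 - (3 * y ^ 2) / 3 + (5 * y ^ 4) / 5) - 1 / (1 + y ^ 2) =
        y ^ 6 / (1 + y ^ 2) := by
      have : 1 + y ^ 2 ≠ 0 := by positivity
      field_simp
      ring
    rw [h4] at h3
    exact h3
  have hm : Monotone (fun x : ℝ => (x - x ^ 3 / 3 + x ^ 5 / 5) - arctan x) := by
    apply monotone_of_deriv_nonneg (fun y => (hd y).differentiableAt)
    intro y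
    rw [(hd y).deriv]
    positivity
  have := hm hx
  simp only [arctan_zero] at this
  norm_num at this
  linarith

theorem at_A (m : ℝ) (hm : 0 < m) : π / 2 + arctan (-(1 / m)) = arctan m := by
  rw [arctan_neg, one_div, arctan_inv_of_pos hm]
  ring

theorem at_99 : arctan (99 / 100) = π / 4 - arctan (1 / 199) := by
  have h := arctan_add (x := (99 / 100 : ℝ)) (y := 1 / 199) (by norm_num)
  have e : ((99 / 100 : ℝ) + 1 / 199) / (1 - 99 / 100 * (1 / 199)) = 1 := by norm_num
  rw [e, arctan_one] at h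
  linarith

theorem at_B0 : π / 2 + arctan (-19700 / 20099) = π / 4 + arctan (1 / 199) + arctan (1 / 200) := by
  have h := arctan_add (x := (-(99 / 100) : ℝ)) (y := 1 / 200) (by norm_num)
  have e : ((-(99 / 100) : ℝ) + 1 / 200) / (1 - -(99 / 100) * (1 / 200)) = -19700 / 20099 := by
    norm_num
  rw [e, arctan_neg, at_99] at h
  linarith

theorem at_B1 : π / 2 + arctan (-9800 / 10099) = π / 4 + arctan (1 / 199) + arctan (1 / 100) := by
  have h := arctan_add (x := (-(99 / 100) : ℝ)) (y := 1 / 100) (by norm_num)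
  have e : ((-(99 / 100) : ℝ) + 1 / 100) / (1 - -(99 / 100) * (1 / 100)) = -9800 / 10099 := by
    norm_num
  rw [e, arctan_neg, at_99] at h
  linarith

theorem at_C0 : π / 2 + arctan (201 / 199) = 3 * π / 4 + arctan (1 / 200) := by
  have h := arctan_add (x := (1 : ℝ)) (y := 1 / 200) (by norm_num)
  have e : ((1 : ℝ) + 1 / 200) / (1 - 1 * (1 / 200)) = 201 / 199 := by norm_num
  rw [e, arctan_one] at h
  linarith

theorem at_C1 : π / 2 + arctan (101 / 99) = 3 * π / 4 + arctan (1 / 100) := by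
  have h := arctan_add (x := (1 : ℝ)) (y := 1 / 100) (by norm_num)
  have e : ((1 : ℝ) + 1 / 100) / (1 - 1 * (1 / 100)) = 101 / 99 := by norm_num
  rw [e, arctan_one] at h
  linarith

/-- Minus the real part of `L` at the base point. -/
def GG (a t p : ℝ) : ℝ :=
  -((1 + t ^ 2) * (a - (299 / 2 - a * t + 1 / (1 + t)) * p + 1 / (1 + t) * (π / 4)) -
      t * (299 / 2 + π / 4))

theorem bound_A_lo : 1 / 1000 < GG (16667 / 6666) (-100) (arctan (1 / 100)) -
    GG (26667 / 26666) (-200) (arctan (1 / 200)) := by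
  have h1 := arctan_lower (x := 1 / 100) (by norm_num)
  have h2 := arctan_upper (x := 1 / 100) (by norm_num)
  have h3 := arctan_lower (x := 1 / 200) (by norm_num)
  have h4 := arctan_upper (x := 1 / 200) (by norm_num)
  have h5 := Real.pi_gt_d6
  have h6 := Real.pi_lt_d6
  unfold GG
  norm_num at *
  linarith

theorem bound_A_hi : GG (16667 / 6666) (-100) (arctan (1 / 100)) -
    GG (26667 / 26666) (-200) (arctan (1 / 200)) < 11 / 10000 := by
  have h1 := arctan_lower (x := 1 / 100) (by norm_num)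
  have h2 := arctan_upper (x := 1 / 100) (by norm_num)
  have h3 := arctan_lower (x := 1 / 200) (by norm_num)
  have h4 := arctan_upper (x := 1 / 200) (by norm_num)
  have h5 := Real.pi_gt_d6
  have h6 := Real.pi_lt_d6
  unfold GG
  norm_num at *
  linarith

theorem bound_B_lo : -(21 / 10000) <
    GG (16667 / 6666) (-9800 / 10099) (π / 4 + arctan (1 / 199) + arctan (1 / 100)) -
    GG (26667 / 26666) (-19700 / 20099) (π / 4 + arctan (1 / 199) + arctan (1 / 200)) := by
  have h1 := arctan_lower (x := 1 / 100) (by norm_num)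
  have h2 := arctan_upper (x := 1 / 100) (by norm_num)
  have h3 := arctan_lower (x := 1 / 200) (by norm_num)
  have h4 := arctan_upper (x := 1 / 200) (by norm_num)
  have h7 := arctan_lower (x := 1 / 199) (by norm_num)
  have h8 := arctan_upper (x := 1 / 199) (by norm_num)
  have h5 := Real.pi_gt_d6
  have h6 := Real.pi_lt_d6
  unfold GG
  norm_num at *
  linarith

theorem bound_C_hi : GG (16667 / 6666) (101 / 99) (3 * π / 4 + arctan (1 / 100)) -
    GG (26667 / 26666) (201 / 199) (3 * π / 4 + arctan (1 / 200)) < -(24 / 100) := by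
  have h1 := arctan_lower (x := 1 / 100) (by norm_num)
  have h2 := arctan_upper (x := 1 / 100) (by norm_num)
  have h3 := arctan_lower (x := 1 / 200) (by norm_num)
  have h4 := arctan_upper (x := 1 / 200) (by norm_num)
  have h5 := Real.pi_gt_d6
  have h6 := Real.pi_lt_d6
  unfold GG
  norm_num at *
  linarith

/-- Positive weights. -/
theorem weights {uA uB uC gA gB gC : ℝ} (c1 : uA * gB - uB * gA < 0) (c2 : uB * gC - uC * gB < 0)
    (c3 : uC * gA - uA * gC < 0) (e1 e2 : ℝ) :
    ∃ x y z : ℝ, 0 < x ∧ 0 < y ∧ 0 < z ∧ x * uA + y * uB + z * uC = e1 ∧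
      x * gA + y * gB + z * gC = e2 := by
  set p : ℝ := (e1 * gB - uB * e2) / (uA * gB - uB * gA) with hp
  set q : ℝ := (uA * e2 - e1 * gA) / (uA * gB - uB * gA) with hq
  set l : ℝ := 1 + |p| / (-(uB * gC - uC * gB)) + |q| / (-(uC * gA - uA * gC)) with hl
  have hc := c1.ne
  have hp1 : p * (uA * gB - uB * gA) = e1 * gB - uB * e2 := by
    rw [hp]; exact div_mul_cancel₀ _ hc
  have hq1 : q * (uA * gB - uB * gA) = uA * e2 - e1 * gA := by
    rw [hq]; exact div_mul_cancel₀ _ hc
  have n2 : 0 < -(uB * gC - uC * gB) := by linarith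
  have n3 : 0 < -(uC * gA - uA * gC) := by linarith
  have t1 : 0 ≤ |p| / (-(uB * gC - uC * gB)) := by positivity
  have t2 : 0 ≤ |q| / (-(uC * gA - uA * gC)) := by positivity
  have s1 : |p| / (-(uB * gC - uC * gB)) * (-(uB * gC - uC * gB)) = |p| :=
    div_mul_cancel₀ _ n2.ne'
  have s2 : |q| / (-(uC * gA - uA * gC)) * (-(uC * gA - uA * gC)) = |q| :=
    div_mul_cancel₀ _ n3.ne'
  refine ⟨l * (-(uB * gC - uC * gB)) + p, l * (-(uC * gA - uA * gC)) + q,
    l * (-(uA * gB - uB * gA)), ?_, ?_, ?_, ?_, ?_⟩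
  · have := neg_abs_le p
    have h : l * (-(uB * gC - uC * gB)) ≥ -(uB * gC - uC * gB) + |p| := by
      rw [hl]; nlinarith [mul_nonneg t2 n2.le]
    linarith
  · have := neg_abs_le q
    have h : l * (-(uC * gA - uA * gC)) ≥ -(uC * gA - uA * gC) + |q| := by
      rw [hl]; nlinarith [mul_nonneg t1 n3.le]
    linarith
  · have : 0 < l := by rw [hl]; linarith
    exact mul_pos this (by linarith)
  · have h : p * uA + q * uB = e1 := by
      have : (p * uA + q * uB) * (uA * gB - uB * gA) = e1 * (uA * gB - uB * gA) := by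
        linear_combination uA * hp1 + uB * hq1
      exact mul_right_cancel₀ hc this
    linear_combination h
  · have h : p * gA + q * gB = e2 := by
      have : (p * gA + q * gB) * (uA * gB - uB * gA) = e2 * (uA * gB - uB * gA) := by
        linear_combination gA * hp1 + gB * hq1
      exact mul_right_cancel₀ hc this
    linear_combination h

end

end Pool.Agent.TH221.HM
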