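import Pool.Agent.TH221.HM.Image

/-!
# The plane without two parallel rays is open and simply connected
-/

open Complex Real Filter Topology

namespace Pool.Agent.TH221.HM

noncomputable section

theorem Om_open (x1 x2 : ℝ) : IsOpen (Om x1 x2) := by
  have h : Om x1 x2 = ({z : ℂ | z.im = 0} ∩ {z : ℂ | z.re ≤ x2})ᶜ ∩
      ({z : ℂ | z.im = π} ∩ {z : ℂ | z.re ≤ x1})ᶜ := by
    ext z
    simp only [Om, Set.mem_ofPred_eq, Set.mem_inter_iff, Set.mem_compl_iff, not_and, not_le]
  rw [h]
  apply IsOpen.inter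
  · rw [isOpen_compl_iff]
    exact (isClosed_eq Complex.continuous_im continuous_const).inter
      (isClosed_le Complex.continuous_re continuous_const)
  · rw [isOpen_compl_iff]
    exact (isClosed_eq Complex.continuous_im continuous_const).inter
      (isClosed_le Complex.continuous_re continuous_const)

theorem Om_ne_univ (x1 x2 : ℝ) : Om x1 x2 ≠ Set.univ := by
  intro h
  have h1 : (⟨x2, 0⟩ : ℂ) ∈ Om x1 x2 := by rw [h]; trivial
  have := h1.1 rfl
  simp at this

theorem Om_contractible (x1 x2 : ℝ) : ContractibleSpace (Om x1 x2) := by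
  rw [contractible_iff_id_nullhomotopic]
  set R : ℝ := max x1 x2 + 1 with hR
  have hR1 : x1 < R := lt_of_le_of_lt (le_max_left _ _) (lt_add_one _)
  have hR2 : x2 < R := lt_of_le_of_lt (le_max_right _ _) (lt_add_one _)
  have hp : (⟨R, 0⟩ : ℂ) ∈ Om x1 x2 := ⟨fun _ => hR2, fun h => by
    exfalso; exact Real.pi_pos.ne h⟩
  refine ⟨⟨⟨R, 0⟩, hp⟩, ?_⟩
  -- the retraction
  have hmem : ∀ z : Om x1 x2, (⟨max z.1.re R, z.1.im⟩ : ℂ) ∈ Om x1 x2 := fun z =>
    ⟨fun _ => lt_of_lt_of_le hR2 (le_max_right _ _), fun _ => lt_of_lt_of_le hR1 (le_max_right _ _)⟩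
  have hcre : Continuous fun z : Om x1 x2 => z.1.re := Complex.continuous_re.comp continuous_subtype_val
  have hcim : Continuous fun z : Om x1 x2 => z.1.im := Complex.continuous_im.comp continuous_subtype_val
  have mk_cont : ∀ {X : Type} [TopologicalSpace X] {f g : X → ℝ}, Continuous f → Continuous g →
      Continuous fun x => (⟨f x, g x⟩ : ℂ) := by
    intro X _ f g hf hg
    have : (fun x => (⟨f x, g x⟩ : ℂ)) = fun x => (f x : ℂ) + (g x : ℂ) * I := by
      funext x; exact Complex.mk_eq_add_mul_I _ _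
    rw [this]
    exact (Complex.continuous_ofReal.comp hf).add
      ((Complex.continuous_ofReal.comp hg).mul continuous_const)
  let ret : C(Om x1 x2, Om x1 x2) :=
    ⟨fun z => ⟨⟨max z.1.re R, z.1.im⟩, hmem z⟩,
      Continuous.subtype_mk (mk_cont (hcre.max continuous_const) hcim) _⟩
  have h1 : (ContinuousMap.id (Om x1 x2)).Homotopic ret := by
    have hm : ∀ p : unitInterval × Om x1 x2,
        (⟨(1 - (p.1 : ℝ)) * p.2.1.re + (p.1 : ℝ) * max p.2.1.re R, p.2.1.im⟩ : ℂ) ∈ Om x1 x2 := by
      rintro ⟨s, z⟩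
      have hs0 := s.2.1
      have hs1 := s.2.2
      have hle : z.1.re ≤ max z.1.re R := le_max_left _ _
      have key : z.1.re ≤ (1 - (s : ℝ)) * z.1.re + (s : ℝ) * max z.1.re R := by nlinarith
      exact ⟨fun h => lt_of_lt_of_le (z.2.1 h) key, fun h => lt_of_lt_of_le (z.2.2 h) key⟩
    refine ⟨⟨⟨fun p => ⟨_, hm p⟩, ?_⟩, ?_, ?_⟩⟩
    · apply Continuous.subtype_mk
      apply mk_cont
      · have c1 : Continuous fun p : unitInterval × Om x1 x2 => (p.1 : ℝ) :=
          continuous_subtype_val.comp continuous_fst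
        have c2 : Continuous fun p : unitInterval × Om x1 x2 => p.2.1.re := hcre.comp continuous_snd
        exact ((continuous_const.sub c1).mul c2).add (c1.mul (c2.max continuous_const))
      · exact hcim.comp continuous_snd
    · intro z
      apply Subtype.ext
      apply Complex.ext <;> simp
    · intro z
      apply Subtype.ext
      apply Complex.ext <;> simp [ret]
  have h2 : ret.Homotopic (ContinuousMap.const (Om x1 x2) ⟨⟨R, 0⟩, hp⟩) := by
    have hm : ∀ p : unitInterval × Om x1 x2,
        (⟨(1 - (p.1 : ℝ)) * max p.2.1.re R + (p.1 : ℝ) * R, (1 - (p.1 : ℝ)) * p.2.1.im⟩ : ℂ) ∈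
          Om x1 x2 := by
      rintro ⟨s, z⟩
      have hs0 := s.2.1
      have hs1 := s.2.2
      have hle : R ≤ max z.1.re R := le_max_right _ _
      have key : R ≤ (1 - (s : ℝ)) * max z.1.re R + (s : ℝ) * R := by nlinarith
      exact ⟨fun _ => lt_of_lt_of_le hR2 key, fun _ => lt_of_lt_of_le hR1 key⟩
    refine ⟨⟨⟨fun p => ⟨_, hm p⟩, ?_⟩, ?_, ?_⟩⟩
    · apply Continuous.subtype_mk
      have c1 : Continuous fun p : unitInterval × Om x1 x2 => (p.1 : ℝ) :=
        continuous_subtype_val.comp continuous_fst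
      have c2 : Continuous fun p : unitInterval × Om x1 x2 => p.2.1.re := hcre.comp continuous_snd
      have c3 : Continuous fun p : unitInterval × Om x1 x2 => p.2.1.im := hcim.comp continuous_snd
      apply mk_cont
      · exact ((continuous_const.sub c1).mul (c2.max continuous_const)).add (c1.mul continuous_const)
      · exact (continuous_const.sub c1).mul c3
    · intro z
      apply Subtype.ext
      apply Complex.ext <;> simp [ret]
    · intro z
      apply Subtype.ext
      apply Complex.ext <;> simp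
  exact h1.trans h2

theorem Om_sc (x1 x2 : ℝ) : SimplyConnectedSpace (Om x1 x2) := by
  have := Om_contractible x1 x2
  infer_instance

end

end Pool.Agent.TH221.HM
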