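import Pool.Agent.TH221.HM.Cay
import Pool.Agent.TH221.HM.Topo
import Pool.Agent.TH221.HM.Num

/-!
# The two solutions
-/

open Complex Real Filter Topology ComplexConjugate

namespace Pool.Agent.TH221.HM

noncomputable section

/-- `f` is a solution for `(Ω, ω, w₀)`: a univalent harmonic map `f = h + conj g` of the unit disk
onto `Ω`, sense preserving, with dilatation `ω = g' / h'`, `f 0 = w₀` and `f_z(0) = h'(0) > 0`. -/
structure IsSolution (Ω : Set ℂ) (w₀ : ℂ) (ω f : ℂ → ℂ) : Prop where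
  /-- The decomposition `f = h + conj g`. -/
  parts : ∃ h g : ℂ → ℂ, DifferentiableOn ℂ h (Metric.ball 0 1) ∧
    DifferentiableOn ℂ g (Metric.ball 0 1) ∧
    (∀ z ∈ Metric.ball (0 : ℂ) 1, f z = h z + conj (g z)) ∧
    (∀ z ∈ Metric.ball (0 : ℂ) 1, deriv g z = ω z * deriv h z) ∧
    (∀ z ∈ Metric.ball (0 : ℂ) 1, ‖deriv g z‖ < ‖deriv h z‖) ∧
    0 < (deriv h 0).re ∧ (deriv h 0).im = 0
  /-- Univalence. -/
  inj : Set.InjOn f (Metric.ball 0 1)
  /-- The map is onto `Ω`. -/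
  image : f '' Metric.ball 0 1 = Ω
  /-- The base point. -/
  base : f 0 = w₀

theorem tips {a β : ℝ} (ha : 0 < a) (hβ : 0 < β) : ∃ τ1 τ2 : ℝ, τ1 < 0 ∧
    -a * τ1 + β + 1 / τ1 = 0 ∧ 0 < τ2 ∧ -a * τ2 + β + 1 / τ2 = 0 ∧
    ∀ s : ℝ, a * s ^ 2 - β * s - 1 = a * (s - τ1) * (s - τ2) := by
  set r := √(β ^ 2 + 4 * a) with hr
  have hpos : 0 < β ^ 2 + 4 * a := by positivity
  have hr2 : r ^ 2 = β ^ 2 + 4 * a := Real.sq_sqrt hpos.le
  have hr0 : 0 ≤ r := Real.sqrt_nonneg _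
  have hrβ : β < r := by
    by_contra h
    push Not at h
    nlinarith
  have ha' : a ≠ 0 := ha.ne'
  have n1 : (β - r) / (2 * a) < 0 := div_neg_of_neg_of_pos (by linarith) (by linarith)
  have n2 : 0 < (β + r) / (2 * a) := div_pos (by linarith) (by linarith)
  have hsum : (β - r) / (2 * a) + (β + r) / (2 * a) = β / a := by field_simp; ring
  have hprod : (β - r) / (2 * a) * ((β + r) / (2 * a)) = -(1 / a) := by
    have : (β - r) / (2 * a) * ((β + r) / (2 * a)) = (β ^ 2 - r ^ 2) / (4 * a ^ 2) := by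
      field_simp; ring
    rw [this, hr2]
    field_simp
    ring
  have fac : ∀ s : ℝ, a * s ^ 2 - β * s - 1 =
      a * (s - (β - r) / (2 * a)) * (s - (β + r) / (2 * a)) := by
    intro s
    have e : a * (s - (β - r) / (2 * a)) * (s - (β + r) / (2 * a)) =
        a * s ^ 2 - a * ((β - r) / (2 * a) + (β + r) / (2 * a)) * s +
          a * ((β - r) / (2 * a) * ((β + r) / (2 * a))) := by ring
    rw [e, hsum, hprod]
    field_simp
    ring
  refine ⟨(β - r) / (2 * a), (β + r) / (2 * a), n1, ?_, n2, ?_, fac⟩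
  · have h := fac ((β - r) / (2 * a))
    rw [sub_self, mul_zero, zero_mul] at h
    set x := (β - r) / (2 * a)
    have hx : x ≠ 0 := n1.ne
    field_simp
    linarith
  · have h := fac ((β + r) / (2 * a))
    rw [sub_self, mul_zero] at h
    set x := (β + r) / (2 * a)
    have hx : x ≠ 0 := n2.ne'
    field_simp
    linarith

theorem lt_tip1 {a β τ1 τ2 s : ℝ} (ha : 0 < a) (t2 : 0 < τ2)
    (fac : ∀ s : ℝ, a * s ^ 2 - β * s - 1 = a * (s - τ1) * (s - τ2)) (hs : s < 0)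
    (h : 0 < a * s ^ 2 - β * s - 1) : s < τ1 := by
  by_contra hc
  push Not at hc
  rw [fac] at h
  have h1 : 0 ≤ a * (s - τ1) := mul_nonneg ha.le (by linarith)
  have h2 : s - τ2 ≤ 0 := by linarith
  have := mul_nonpos_of_nonneg_of_nonpos h1 h2
  linarith

theorem lt_tip2 {a β τ1 τ2 s : ℝ} (ha : 0 < a) (t1 : τ1 < 0)
    (fac : ∀ s : ℝ, a * s ^ 2 - β * s - 1 = a * (s - τ1) * (s - τ2)) (hs : 0 < s)
    (h : a * s ^ 2 - β * s - 1 < 0) : s < τ2 := by
  by_contra hc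
  push Not at hc
  rw [fac] at h
  have h1 : 0 ≤ a * (s - τ1) := mul_nonneg ha.le (by linarith)
  have h2 : 0 ≤ s - τ2 := by linarith
  have := mul_nonneg h1 h2
  linarith

/-- The solution in the disk. -/
def ff (a β : ℝ) (W : ℂ → ℂ) (m : ℝ) (z : ℂ) : ℂ := shear a β W (cay m z)

theorem ff_sol {a β : ℝ} {W q : ℂ → ℂ} {τ1 τ2 : ℝ} (D : Data a β W q τ1 τ2) (m : ℝ)
    {Q : ℂ → ℂ} (hQ : ∀ z : ℂ, ‖z‖ < 1 → q (cay m z) = Q z) {w₀ : ℂ}
    (hw₀ : shear a β W (1 + I) = w₀) {Q0 p : ℝ} (hQ0 : Q 0 = (Q0 : ℂ)) (hQ0' : 0 < Q0)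
    (hp : dPsi a β (1 + I) * ((1 + (m : ℂ) * I) / (1 - (m : ℂ) * I)) = (p : ℂ)) (hp' : 0 < p) :
    IsSolution (Om (W τ1).re (W τ2).re) w₀ (fun z => (Q z - 1) / (Q z + 1)) (ff a β W m) := by
  have ball : ∀ z : ℂ, z ∈ Metric.ball (0 : ℂ) 1 ↔ ‖z‖ < 1 := fun z => by simp
  set c' : ℂ → ℂ := fun z => 2 * ((1 + (m : ℂ) * I) / (1 - (m : ℂ) * I)) / (1 - uu m z) ^ 2 with hc'
  have hc'ne : ∀ z : ℂ, ‖z‖ < 1 → c' z ≠ 0 := by
    intro z hz
    exact div_ne_zero (mul_ne_zero two_ne_zero (div_ne_zero (one_add_ne m) (one_sub_ne m)))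
      (pow_ne_zero 2 (one_sub_uu_ne hz))
  have dW : ∀ z : ℂ, ‖z‖ < 1 → HasDerivAt (fun z => W (cay m z))
      (Q z * dPsi a β (cay m z) * c' z) z := by
    intro z hz
    have h1 := D.hW (cay m z) (cay_im hz)
    rw [hQ z hz] at h1
    exact HasDerivAt.comp z h1 (cay_deriv hz)
  have dP : ∀ z : ℂ, ‖z‖ < 1 → HasDerivAt (fun z => Psi a β (cay m z))
      (dPsi a β (cay m z) * c' z) z := by
    intro z hz
    have h1 := (Psi_strict a β (w := cay m z) (Or.inl (cay_im hz))).hasDerivAt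
    exact HasDerivAt.comp z h1 (cay_deriv hz)
  have dh : ∀ z : ℂ, ‖z‖ < 1 → HasDerivAt (fun z => (W (cay m z) + Psi a β (cay m z)) / 2)
      ((Q z + 1) * (dPsi a β (cay m z) * c' z) / 2) z := by
    intro z hz
    have h1 := ((dW z hz).add (dP z hz)).div_const 2
    have e : (Q z * dPsi a β (cay m z) * c' z + dPsi a β (cay m z) * c' z) / 2 =
        (Q z + 1) * (dPsi a β (cay m z) * c' z) / 2 := by ring
    rw [e] at h1
    exact h1
  have dg : ∀ z : ℂ, ‖z‖ < 1 → HasDerivAt (fun z => (W (cay m z) - Psi a β (cay m z)) / 2)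
      ((Q z - 1) * (dPsi a β (cay m z) * c' z) / 2) z := by
    intro z hz
    have h1 := ((dW z hz).sub (dP z hz)).div_const 2
    have e : (Q z * dPsi a β (cay m z) * c' z - dPsi a β (cay m z) * c' z) / 2 =
        (Q z - 1) * (dPsi a β (cay m z) * c' z) / 2 := by ring
    rw [e] at h1
    exact h1
  have hQre : ∀ z : ℂ, ‖z‖ < 1 → 0 < (Q z).re := by
    intro z hz
    rw [← hQ z hz]
    exact D.hq _ (cay_im hz)
  have hQ1 : ∀ z : ℂ, ‖z‖ < 1 → Q z + 1 ≠ 0 := by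
    intro z hz h
    have := congrArg Complex.re h
    simp at this
    linarith [hQre z hz]
  have hlt : ∀ z : ℂ, ‖z‖ < 1 → ‖Q z - 1‖ < ‖Q z + 1‖ := by
    intro z hz
    rw [← sq_lt_sq₀ (norm_nonneg _) (norm_nonneg _), ← Complex.normSq_eq_norm_sq,
      ← Complex.normSq_eq_norm_sq, Complex.normSq_apply, Complex.normSq_apply]
    simp only [Complex.sub_re, Complex.one_re, Complex.sub_im, Complex.one_im,
      Complex.add_re, Complex.add_im]
    nlinarith [hQre z hz]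
  have hdP : ∀ z : ℂ, ‖z‖ < 1 → dPsi a β (cay m z) ≠ 0 := by
    intro z hz h
    have := dPsi_im_neg (β := β) D.ha (cay_im (m := m) hz)
    rw [h] at this
    simp at this
  refine ⟨⟨fun z => (W (cay m z) + Psi a β (cay m z)) / 2,
    fun z => (W (cay m z) - Psi a β (cay m z)) / 2, ?_, ?_, ?_, ?_, ?_, ?_, ?_⟩, ?_, ?_, ?_⟩
  · intro z hz
    exact (dh z ((ball z).mp hz)).differentiableAt.differentiableWithinAt
  · intro z hz
    exact (dg z ((ball z).mp hz)).differentiableAt.differentiableWithinAt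
  · intro z _
    apply Complex.ext
    · simp only [ff, shear, Complex.add_re, Complex.conj_re]
      have e : ∀ x : ℂ, (x / 2).re = x.re / 2 := fun x => by
        have : (2 : ℂ) = ((2 : ℝ) : ℂ) := by norm_num
        rw [this, Complex.div_ofReal_re]
      rw [e, e, Complex.add_re, Complex.sub_re]
      ring
    · simp only [ff, shear, Complex.add_im, Complex.conj_im]
      have e : ∀ x : ℂ, (x / 2).im = x.im / 2 := fun x => by
        have : (2 : ℂ) = ((2 : ℝ) : ℂ) := by norm_num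
        rw [this, Complex.div_ofReal_im]
      rw [e, e, Complex.add_im, Complex.sub_im]
      ring
  · intro z hz
    have hz' := (ball z).mp hz
    rw [(dh z hz').deriv, (dg z hz').deriv]
    have := hQ1 z hz'
    field_simp
  · intro z hz
    have hz' := (ball z).mp hz
    rw [(dh z hz').deriv, (dg z hz').deriv, norm_div, norm_div, norm_mul (Q z - 1),
      norm_mul (Q z + 1)]
    have h1 : 0 < ‖dPsi a β (cay m z) * c' z‖ :=
      norm_pos_iff.mpr (mul_ne_zero (hdP z hz') (hc'ne z hz'))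
    have h2 : (0 : ℝ) < ‖(2 : ℂ)‖ := by simp
    have h3 := hlt z hz'
    gcongr
  · have h0 : ‖(0 : ℂ)‖ < 1 := by simp
    rw [(dh 0 h0).deriv]
    have e : (Q 0 + 1) * (dPsi a β (cay m 0) * c' 0) / 2 = (((Q0 + 1) * p : ℝ) : ℂ) := by
      rw [hQ0, cay_zero, hc']
      simp only [uu_zero, sub_zero, one_pow, div_one]
      push_cast
      rw [← hp]
      ring
    rw [e, Complex.ofReal_re]
    positivity
  · have h0 : ‖(0 : ℂ)‖ < 1 := by simp
    rw [(dh 0 h0).deriv]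
    have e : (Q 0 + 1) * (dPsi a β (cay m 0) * c' 0) / 2 = (((Q0 + 1) * p : ℝ) : ℂ) := by
      rw [hQ0, cay_zero, hc']
      simp only [uu_zero, sub_zero, one_pow, div_one]
      push_cast
      rw [← hp]
      ring
    rw [e, Complex.ofReal_im]
  · intro z hz z' hz' h
    have h1 := D.inj (cay_im (m := m) ((ball z).mp hz)) (cay_im (m := m) ((ball z').mp hz')) h
    exact cay_inj ((ball z).mp hz) ((ball z').mp hz') h1
  · have h1 : Metric.ball (0 : ℂ) 1 = {z : ℂ | ‖z‖ < 1} := by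
      ext z; exact ball z
    have h2 : ff a β W m = shear a β W ∘ cay m := rfl
    rw [h1, h2, Set.image_comp, cay_image, D.image]
  · rw [ff, cay_zero, hw₀]

/-- Two solutions with different derivatives are different. -/
theorem ff_ne {a1 β1 a2 β2 : ℝ} {W1 W2 : ℂ → ℂ} {m1 m2 p1 p2 : ℝ}
    (hp1 : dPsi a1 β1 (1 + I) * ((1 + (m1 : ℂ) * I) / (1 - (m1 : ℂ) * I)) = (p1 : ℂ))
    (hp2 : dPsi a2 β2 (1 + I) * ((1 + (m2 : ℂ) * I) / (1 - (m2 : ℂ) * I)) = (p2 : ℂ))
    (hne : p1 ≠ p2) : ∃ z ∈ Metric.ball (0 : ℂ) 1, ff a1 β1 W1 m1 z ≠ ff a2 β2 W2 m2 z := by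
  by_contra hcon
  push Not at hcon
  have key : ∀ (a β : ℝ) (m p : ℝ), dPsi a β (1 + I) * ((1 + (m : ℂ) * I) / (1 - (m : ℂ) * I)) =
      (p : ℂ) → HasDerivAt (fun y : ℝ => (Psi a β (cay m ((y : ℂ) * I))).im) (2 * p) 0 := by
    intro a β m p hp
    have h0 : ‖(0 : ℂ)‖ < 1 := by simp
    have c1 := cay_deriv (m := m) h0
    have c2 : HasDerivAt (Psi a β) (dPsi a β (1 + I)) (cay m 0) := by
      rw [cay_zero]
      exact (Psi_strict a β (w := 1 + I) (Or.inl (by simp))).hasDerivAt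
    have c3 := HasDerivAt.comp (0 : ℂ) c2 c1
    have c4 : HasDerivAt (fun y : ℝ => (y : ℂ) * I) I 0 := by
      simpa using (Complex.ofRealCLM.hasDerivAt (x := (0 : ℝ))).mul_const I
    have c5 : HasDerivAt (Psi a β ∘ cay m) (dPsi a β (1 + I) *
        (2 * ((1 + (m : ℂ) * I) / (1 - (m : ℂ) * I)) / (1 - uu m 0) ^ 2)) (((0 : ℝ) : ℂ) * I) := by
      simpa using c3
    have c6 := HasDerivAt.scomp (0 : ℝ) c5 c4
    have c7 := (Complex.imCLM.hasFDerivAt.comp_hasDerivAt (0 : ℝ) c6)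
    have e : (Complex.imCLM (I • (dPsi a β (1 + I) *
        (2 * ((1 + (m : ℂ) * I) / (1 - (m : ℂ) * I)) / (1 - uu m 0) ^ 2)))) = 2 * p := by
      have e1 : dPsi a β (1 + I) * (2 * ((1 + (m : ℂ) * I) / (1 - (m : ℂ) * I)) / (1 - uu m 0) ^ 2)
          = ((2 * p : ℝ) : ℂ) := by
        rw [uu_zero]
        push_cast
        rw [← hp]
        ring
      rw [e1]
      simp
    rw [e] at c7
    exact c7
  have k1 := key a1 β1 m1 p1 hp1
  have k2 := key a2 β2 m2 p2 hp2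
  have heq : (fun y : ℝ => (Psi a1 β1 (cay m1 ((y : ℂ) * I))).im) =ᶠ[𝓝 0]
      (fun y : ℝ => (Psi a2 β2 (cay m2 ((y : ℂ) * I))).im) := by
    have : ∀ᶠ y : ℝ in 𝓝 (0 : ℝ), |y| < 1 := by
      have := Metric.ball_mem_nhds (0 : ℝ) one_pos
      filter_upwards [this] with y hy
      simpa using hy
    filter_upwards [this] with y hy
    have hb : (y : ℂ) * I ∈ Metric.ball (0 : ℂ) 1 := by simpa using hy
    have := hcon _ hb
    have h2 := congrArg Complex.im this
    exact h2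
  have := k1.congr_of_eventuallyEq heq.symm
  have h3 := this.unique k2
  exact hne (by linarith)

end

end Pool.Agent.TH221.HM
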