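import Pool.Agent.TH221.HM.Log

/-!
# The conformal maps of the upper half plane onto the plane without two parallel rays
-/

open Complex Real

namespace Pool.Agent.TH221.HM

noncomputable section

/-- The function `-a w² / 2 + β w + log w`. -/
def Psi (a β : ℝ) (w : ℂ) : ℂ := -((a / 2 : ℝ) : ℂ) * (w * w) + (β : ℂ) * w + ell w

/-- The derivative of `Psi`. -/
def dPsi (a β : ℝ) (w : ℂ) : ℂ := -(a : ℂ) * w + (β : ℂ) + 1 / w

theorem Psi_strict (a β : ℝ) {w : ℂ} (h : good w) : HasStrictDerivAt (Psi a β) (dPsi a β w) w := by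
  have h1 := ((hasStrictDerivAt_id w).mul (hasStrictDerivAt_id w)).const_mul (-((a / 2 : ℝ) : ℂ))
  have h2 := (hasStrictDerivAt_id w).const_mul ((β : ℂ))
  have h3 := (h1.add h2).add (ell_strict h)
  have h4 : -((a / 2 : ℝ) : ℂ) * (1 * id w + id w * 1) + (β : ℂ) * 1 + 1 / w = dPsi a β w := by
    simp only [id, dPsi]
    push_cast
    ring
  rw [h4] at h3
  exact h3

theorem dPsi_im (a β : ℝ) (w : ℂ) : (dPsi a β w).im = -(a * w.im) - w.im / Complex.normSq w := by
  simp only [dPsi, one_div, Complex.add_im, Complex.mul_im, Complex.neg_im, Complex.neg_re,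
    Complex.ofReal_im, Complex.ofReal_re, Complex.inv_im]
  ring

theorem dPsi_im_neg {a β : ℝ} (ha : 0 < a) {w : ℂ} (h : 0 < w.im) : (dPsi a β w).im < 0 := by
  rw [dPsi_im]
  have h1 : 0 < a * w.im := mul_pos ha h
  have h2 : 0 ≤ w.im / Complex.normSq w := div_nonneg h.le (Complex.normSq_nonneg w)
  linarith

theorem Psi_im (a β x y : ℝ) :
    (Psi a β ⟨x, y⟩).im = -(a * x * y) + β * y + (ell ⟨x, y⟩).im := by
  simp only [Psi, Complex.add_im, Complex.mul_im, Complex.mul_re, Complex.neg_im, Complex.neg_re,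
    Complex.ofReal_im, Complex.ofReal_re]
  ring

theorem Psi_im' (a β : ℝ) (w : ℂ) :
    (Psi a β w).im = -(a * w.re * w.im) + β * w.im + (ell w).im := Psi_im a β w.re w.im

theorem Psi_re' (a β : ℝ) (w : ℂ) :
    (Psi a β w).re = -(a / 2) * (w.re ^ 2 - w.im ^ 2) + β * w.re + Real.log ‖w‖ := by
  simp only [Psi, Complex.add_re, Complex.mul_im, Complex.mul_re, Complex.neg_im, Complex.neg_re,
    Complex.ofReal_im, Complex.ofReal_re, ell_re]
  ring

/-- The derivative of the imaginary part along horizontal lines. -/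
theorem Psi_im_hasDerivAt (a β : ℝ) {x y : ℝ} (hy : 0 < y) :
    HasDerivAt (fun x : ℝ => (Psi a β ⟨x, y⟩).im) (dPsi a β ⟨x, y⟩).im x := by
  have h1 : HasDerivAt (Psi a β) (dPsi a β ⟨x, y⟩) (⟨x, y⟩ : ℂ) :=
    (Psi_strict a β (w := ⟨x, y⟩) (Or.inl hy)).hasDerivAt
  have h2 : HasDerivAt (fun x : ℝ => (⟨x, y⟩ : ℂ)) 1 x := by
    have : (fun x : ℝ => (⟨x, y⟩ : ℂ)) = fun x : ℝ => (x : ℂ) + (y : ℂ) * I := by
      funext x
      exact Complex.mk_eq_add_mul_I x y
    rw [this]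
    simpa using (Complex.ofRealCLM.hasDerivAt (x := x)).add_const ((y : ℂ) * I)
  have h3 : HasDerivAt (fun x : ℝ => Psi a β ⟨x, y⟩) (dPsi a β ⟨x, y⟩ * 1) x := by
    have := HasDerivAt.scomp x h1 h2
    simpa [Function.comp_def, mul_comm] using this
  have h4 := (Complex.imCLM.hasFDerivAt.comp_hasDerivAt x h3)
  simpa [Function.comp_def] using h4

theorem Psi_im_anti {a β : ℝ} (ha : 0 < a) {y : ℝ} (hy : 0 < y) :
    StrictAnti (fun x : ℝ => (Psi a β ⟨x, y⟩).im) := by
  apply strictAnti_of_deriv_neg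
  intro x
  rw [(Psi_im_hasDerivAt a β hy).deriv]
  exact dPsi_im_neg ha hy

theorem im_cont (a β : ℝ) : ContinuousOn (fun w : ℂ => (Psi a β w).im) {w | 0 < w.im} := by
  intro w hw
  exact (Complex.continuous_im.continuousAt.comp
    (Psi_strict a β (w := w) (Or.inl hw)).hasDerivAt.continuousAt).continuousWithinAt

/-- Each level curve meets each horizontal line. -/
theorem exists_level {a β : ℝ} (ha : 0 < a) {y : ℝ} (hy : 0 < y) (v : ℝ) :
    ∃ x : ℝ, (Psi a β ⟨x, y⟩).im = v := by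
  have hc : Continuous (fun x : ℝ => (Psi a β ⟨x, y⟩).im) :=
    continuous_iff_continuousAt.mpr fun x => (Psi_im_hasDerivAt a β hy).continuousAt
  -- large x: small values
  set x1 : ℝ := (|v| + |β| * y + π) / (a * y) with hx1
  have hay : 0 < a * y := mul_pos ha hy
  have hb : |β * y| ≤ |β| * y := by rw [abs_mul, abs_of_pos hy]
  have hb' := abs_le.mp hb
  have hv := abs_le.mp (le_refl |v|)
  have e1 : a * x1 * y = |v| + |β| * y + π := by
    rw [hx1]; field_simp
  have h1 : (Psi a β ⟨x1, y⟩).im ≤ v := by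
    rw [Psi_im, e1]
    have := ell_im_lt (w := ⟨x1, y⟩) hy
    linarith [hb'.2, hv.1]
  have h2 : v ≤ (Psi a β ⟨-x1, y⟩).im := by
    rw [Psi_im]
    have e2 : -(a * -x1 * y) = |v| + |β| * y + π := by rw [← e1]; ring
    rw [e2]
    have := ell_im_pos (w := ⟨-x1, y⟩) hy
    linarith [hb'.1, hv.2, Real.pi_pos]
  obtain ⟨x, hx⟩ := mem_range_of_exists_le_of_exists_ge hc ⟨x1, h1⟩ ⟨-x1, h2⟩
  exact ⟨x, hx⟩

open Classical in
/-- The real part of the point of the level curve of height `v` on the line of height `y`. -/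
def lev (a β v y : ℝ) : ℝ := if h : ∃ x : ℝ, (Psi a β ⟨x, y⟩).im = v then h.choose else 0

theorem lev_spec {a β : ℝ} (ha : 0 < a) {y : ℝ} (hy : 0 < y) (v : ℝ) :
    (Psi a β ⟨lev a β v y, y⟩).im = v := by
  have h := exists_level (β := β) ha hy v
  rw [lev, dif_pos h]
  exact h.choose_spec

theorem lev_unique {a β : ℝ} (ha : 0 < a) {w : ℂ} (hw : 0 < w.im) {v : ℝ}
    (h : (Psi a β w).im = v) : w = ⟨lev a β v w.im, w.im⟩ := by
  have h1 := lev_spec (β := β) ha hw v
  have h2 : (Psi a β ⟨w.re, w.im⟩).im = v := h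
  have h3 := (Psi_im_anti (β := β) ha hw).injective (h2.trans h1.symm)
  apply Complex.ext
  · exact h3
  · rfl

theorem level_eq {a β : ℝ} (ha : 0 < a) {w z : ℂ} (hw : 0 < w.im) (hwz : w.im = z.im)
    (h : (Psi a β w).im = (Psi a β z).im) : w = z := by
  have h1 := lev_unique (β := β) ha hw rfl
  have h2 := lev_unique (β := β) ha (hwz ▸ hw : 0 < z.im) rfl
  rw [h1, h2, h, hwz]

/-- The real part is bounded on the level curve. -/
theorem level_re_bound {a β : ℝ} (ha : 0 < a) {w : ℂ} (hw : 0 < w.im) :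
    a * w.im * |w.re| ≤ |(Psi a β w).im| + |β| * w.im + π := by
  have h1 := Psi_im' a β w
  have h2 := ell_im_pos hw
  have h3 := ell_im_lt hw
  have h4 : a * w.im * |w.re| = |a * w.re * w.im| := by
    rw [abs_mul, abs_mul, abs_of_pos ha, abs_of_pos hw]; ring
  rw [h4]
  have h5 : a * w.re * w.im = -(Psi a β w).im + (β * w.im + (ell w).im) := by rw [h1]; ring
  rw [h5]
  have h6 : |β * w.im| = |β| * w.im := by rw [abs_mul, abs_of_pos hw]
  calc |-(Psi a β w).im + (β * w.im + (ell w).im)| ≤ |-(Psi a β w).im| + |β * w.im + (ell w).im| :=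
        abs_add_le _ _
    _ ≤ |(Psi a β w).im| + (|β * w.im| + |(ell w).im|) := by
        rw [abs_neg]; gcongr; exact abs_add_le _ _
    _ ≤ |(Psi a β w).im| + |β| * w.im + π := by
        rw [h6, abs_of_pos h2]; linarith

/-- The level curves are compact between two horizontal lines. -/
theorem level_compact {a β : ℝ} (ha : 0 < a) (v y1 y2 : ℝ) (hy1 : 0 < y1) :
    IsCompact {w : ℂ | (y1 ≤ w.im ∧ w.im ≤ y2) ∧ (Psi a β w).im = v} := by
  have hcl : IsClosed {w : ℂ | y1 ≤ w.im ∧ w.im ≤ y2} :=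
    (isClosed_le continuous_const Complex.continuous_im).inter
      (isClosed_le Complex.continuous_im continuous_const)
  have hcont : ContinuousOn (fun w : ℂ => (Psi a β w).im) {w : ℂ | y1 ≤ w.im ∧ w.im ≤ y2} :=
    (im_cont a β).mono fun w hw => lt_of_lt_of_le hy1 hw.1
  have hcl2 : IsClosed ({w : ℂ | y1 ≤ w.im ∧ w.im ≤ y2} ∩ (fun w : ℂ => (Psi a β w).im) ⁻¹' {v}) :=
    hcont.preimage_isClosed_of_isClosed hcl isClosed_singleton
  have hset : {w : ℂ | (y1 ≤ w.im ∧ w.im ≤ y2) ∧ (Psi a β w).im = v} =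
      {w : ℂ | y1 ≤ w.im ∧ w.im ≤ y2} ∩ (fun w : ℂ => (Psi a β w).im) ⁻¹' {v} := by
    ext w; simp
  rw [hset]
  refine Metric.isCompact_of_isClosed_isBounded hcl2 ?_
  rw [isBounded_iff_forall_norm_le]
  refine ⟨(|v| + |β| * y2 + π) / (a * y1) + |y2|, ?_⟩
  rintro w ⟨⟨h1, h2⟩, h3⟩
  have hw : 0 < w.im := lt_of_lt_of_le hy1 h1
  have h4 := level_re_bound (β := β) ha hw
  have h3' : (Psi a β w).im = v := h3
  rw [h3'] at h4
  have h5 : |w.re| ≤ (|v| + |β| * y2 + π) / (a * y1) := by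
    rw [le_div_iff₀ (mul_pos ha hy1)]
    calc |w.re| * (a * y1) = a * y1 * |w.re| := by ring
      _ ≤ a * w.im * |w.re| := by gcongr
      _ ≤ |v| + |β| * w.im + π := h4
      _ ≤ |v| + |β| * y2 + π := by gcongr
  have h6 : |w.im| ≤ |y2| := by
    rw [abs_of_pos hw, abs_of_pos (lt_of_lt_of_le hw h2)]; exact h2
  calc ‖w‖ ≤ |w.re| + |w.im| := Complex.norm_le_abs_re_add_abs_im w
    _ ≤ _ := add_le_add h5 h6

/-- The level curves are continuous. -/
theorem lev_cont {a β : ℝ} (ha : 0 < a) (v : ℝ) : ContinuousOn (lev a β v) (Set.Ioi 0) := by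
  intro y0 hy0
  have hy0' : (0 : ℝ) < y0 := hy0
  apply ContinuousAt.continuousWithinAt
  rw [Metric.continuousAt_iff]
  intro ε hε
  set x0 := lev a β v y0
  have hx0 : (Psi a β ⟨x0, y0⟩).im = v := lev_spec ha hy0' v
  have hA : (Psi a β ⟨x0 + ε / 2, y0⟩).im < v := by
    rw [← hx0]; exact Psi_im_anti ha hy0' (by linarith)
  have hB : v < (Psi a β ⟨x0 - ε / 2, y0⟩).im := by
    rw [← hx0]; exact Psi_im_anti ha hy0' (by linarith)
  have hcont : ∀ x : ℝ, ContinuousAt (fun y : ℝ => (Psi a β ⟨x, y⟩).im) y0 := by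
    intro x
    have h1 : ContinuousAt (fun w : ℂ => (Psi a β w).im) (⟨x, y0⟩ : ℂ) :=
      (im_cont a β).continuousAt ((isOpen_lt continuous_const Complex.continuous_im).mem_nhds hy0')
    have h2 : Continuous (fun y : ℝ => (⟨x, y⟩ : ℂ)) := by
      have : (fun y : ℝ => (⟨x, y⟩ : ℂ)) = fun y : ℝ => (x : ℂ) + (y : ℂ) * I := by
        funext y
        exact Complex.mk_eq_add_mul_I x y
      rw [this]
      fun_prop
    exact ContinuousAt.comp (f := fun y : ℝ => (⟨x, y⟩ : ℂ)) (x := y0) h1 h2.continuousAt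
  have e1 := (hcont (x0 + ε / 2)).eventually_lt_const hA
  have e2 := (hcont (x0 - ε / 2)).eventually_const_lt hB
  have e3 : ∀ᶠ y in nhds y0, (0 : ℝ) < y := lt_mem_nhds hy0'
  obtain ⟨δ, hδ, hball⟩ := Metric.eventually_nhds_iff.mp ((e1.and e2).and e3)
  refine ⟨δ, hδ, ?_⟩
  intro y hy
  obtain ⟨⟨f1, f2⟩, f3⟩ := hball hy
  have hs : (Psi a β ⟨lev a β v y, y⟩).im = v := lev_spec ha f3 v
  have g1 : lev a β v y < x0 + ε / 2 := by
    by_contra hcon
    push Not at hcon
    have := (Psi_im_anti (β := β) ha f3).antitone hcon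
    linarith
  have g2 : x0 - ε / 2 < lev a β v y := by
    by_contra hcon
    push Not at hcon
    have := (Psi_im_anti (β := β) ha f3).antitone hcon
    linarith
  rw [Real.dist_eq, abs_lt]
  constructor <;> linarith

end

end Pool.Agent.TH221.HM
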