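import Pool.Agent.TH221.HM.Psi

/-!
# Univalence and image of the shears
-/

open Complex Real Filter Topology

namespace Pool.Agent.TH221.HM

noncomputable section

/-- The data of a shear of `Psi a β` with `dW = q dΨ`. -/
structure Data (a β : ℝ) (W q : ℂ → ℂ) (τ1 τ2 : ℝ) : Prop where
  ha : 0 < a
  hβ : 0 < β
  hW : ∀ w : ℂ, 0 < w.im → HasDerivAt W (q w * dPsi a β w) w
  hq : ∀ w : ℂ, 0 < w.im → 0 < (q w).re
  bound : ∃ c M : ℝ, 0 ≤ c ∧ 0 ≤ M ∧ ∀ w : ℂ, 0 < w.im →
    |(W w).re - (Psi a β w).re - c * w.im| ≤ M * (1 + |(Psi a β w).im|)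
  t1 : τ1 < 0
  r1 : -a * τ1 + β + 1 / τ1 = 0
  t2 : 0 < τ2
  r2 : -a * τ2 + β + 1 / τ2 = 0
  c1 : ContinuousAt W τ1
  c2 : ContinuousAt W τ2

theorem eventually_gt_of_deriv_pos {f : ℝ → ℝ} {f' : ℝ} (hf : HasDerivAt f f' 0) (h : 0 < f') :
    ∀ᶠ t in 𝓝[>] (0 : ℝ), f 0 < f t := by
  have h1 := hasDerivAt_iff_tendsto_slope.mp hf
  have h2 : Tendsto (slope f 0) (𝓝[>] (0 : ℝ)) (𝓝 f') :=
    h1.mono_left (nhdsWithin_mono _ (fun x hx => ne_of_gt hx))
  have h3 := h2.eventually_const_lt h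
  filter_upwards [h3, self_mem_nhdsWithin] with t ht ht0
  have ht0' : (0 : ℝ) < t := ht0
  rw [slope_def_field] at ht
  have h4 : 0 < f t - f 0 := by
    rcases div_pos_iff.mp ht with h | h
    · exact h.1
    · exfalso; linarith [h.2]
  linarith

variable {a β : ℝ} {W q : ℂ → ℂ} {τ1 τ2 : ℝ}

/-- Local increase along the level curve. -/
theorem Data.local_inc (D : Data a β W q τ1 τ2) {w : ℂ} (hw : 0 < w.im) {δ : ℝ} (hδ : 0 < δ) :
    ∃ z : ℂ, w.im < z.im ∧ z.im < w.im + δ ∧ (Psi a β z).im = (Psi a β w).im ∧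
      (W w).re < (W z).re := by
  have hs := Psi_strict a β (w := w) (Or.inl hw)
  have him := dPsi_im_neg (β := β) D.ha hw
  have hne : dPsi a β w ≠ 0 := by
    intro h; rw [h] at him; simp at him
  set φ := hs.localInverse (Psi a β) (dPsi a β w) w hne with hφ
  have hφd : HasStrictDerivAt φ (dPsi a β w)⁻¹ (Psi a β w) := hs.to_localInverse hne
  have hφ0 : φ (Psi a β w) = w := (hs.eventually_left_inverse hne).self_of_nhds
  have hright : ∀ᶠ x in 𝓝 (Psi a β w), Psi a β (φ x) = x := hs.eventually_right_inverse hne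
  -- the path
  have hpath : HasDerivAt (fun t : ℝ => Psi a β w + (t : ℂ)) 1 0 := by
    simpa using (Complex.ofRealCLM.hasDerivAt (x := (0 : ℝ))).const_add (Psi a β w)
  have hγ : HasDerivAt (fun t : ℝ => φ (Psi a β w + (t : ℂ))) (dPsi a β w)⁻¹ 0 := by
    have h1 : HasDerivAt φ (dPsi a β w)⁻¹ (Psi a β w + ((0 : ℝ) : ℂ)) := by
      simpa using hφd.hasDerivAt
    have := HasDerivAt.scomp (0 : ℝ) h1 hpath
    simpa [Function.comp_def] using this
  have hγ0 : φ (Psi a β w + ((0 : ℝ) : ℂ)) = w := by simpa using hφ0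
  have him2 : HasDerivAt (fun t : ℝ => (φ (Psi a β w + (t : ℂ))).im) ((dPsi a β w)⁻¹).im 0 := by
    have := (Complex.imCLM.hasFDerivAt.comp_hasDerivAt (0 : ℝ) hγ)
    simpa [Function.comp_def] using this
  have hpos : 0 < ((dPsi a β w)⁻¹).im := by
    rw [Complex.inv_im]
    exact div_pos (by linarith) (Complex.normSq_pos.mpr hne)
  have hW2 : HasDerivAt (fun t : ℝ => (W (φ (Psi a β w + (t : ℂ)))).re) ((q w).re) 0 := by
    have h1 : HasDerivAt W (q w * dPsi a β w) (φ (Psi a β w + ((0 : ℝ) : ℂ))) := by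
      rw [hγ0]; exact D.hW w hw
    have h2 := HasDerivAt.comp_of_eq (0 : ℝ) (h₂ := W) (h := fun t : ℝ => φ (Psi a β w + (t : ℂ)))
      h1 hγ rfl
    have h3 : q w * dPsi a β w * (dPsi a β w)⁻¹ = q w := by
      field_simp
    rw [h3] at h2
    have := (Complex.reCLM.hasFDerivAt.comp_hasDerivAt (0 : ℝ) h2)
    simpa [Function.comp_def] using this
  have e1 := eventually_gt_of_deriv_pos him2 hpos
  have e2 := eventually_gt_of_deriv_pos hW2 (D.hq w hw)
  have hcont : ContinuousAt (fun t : ℝ => (φ (Psi a β w + (t : ℂ))).im) 0 := him2.continuousAt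
  have e3 : ∀ᶠ t : ℝ in 𝓝[>] (0 : ℝ), (φ (Psi a β w + (t : ℂ))).im < w.im + δ := by
    have : ∀ᶠ t : ℝ in 𝓝 (0 : ℝ), (φ (Psi a β w + (t : ℂ))).im < w.im + δ := by
      apply hcont.eventually_lt_const
      show (φ (Psi a β w + ((0 : ℝ) : ℂ))).im < w.im + δ
      rw [hγ0]; linarith
    exact this.filter_mono nhdsWithin_le_nhds
  have e4 : ∀ᶠ t : ℝ in 𝓝[>] (0 : ℝ), Psi a β (φ (Psi a β w + (t : ℂ))) = Psi a β w + (t : ℂ) := by
    have hc : Tendsto (fun t : ℝ => Psi a β w + (t : ℂ)) (𝓝 0) (𝓝 (Psi a β w)) := by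
      have := hpath.continuousAt.tendsto
      simpa using this
    exact (hc.eventually hright).filter_mono nhdsWithin_le_nhds
  obtain ⟨t, ⟨⟨h1, h2⟩, h3⟩, h4⟩ := (((e1.and e2).and e3).and e4).exists
  rw [hγ0] at h1 h2
  refine ⟨φ (Psi a β w + (t : ℂ)), h1, h3, ?_, h2⟩
  rw [h4]
  simp

/-- The real part of `W` increases along the level curves. -/
theorem Data.strictMono (D : Data a β W q τ1 τ2) {w z : ℂ} (hw : 0 < w.im) (hwz : w.im < z.im)
    (h : (Psi a β w).im = (Psi a β z).im) : (W w).re < (W z).re := by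
  set v := (Psi a β w).im with hv
  set C := {x : ℂ | (w.im ≤ x.im ∧ x.im ≤ z.im) ∧ (Psi a β x).im = v} with hC
  have hcomp : IsCompact C := level_compact D.ha v w.im z.im hw
  have hwC : w ∈ C := ⟨⟨le_refl _, hwz.le⟩, rfl⟩
  have hzC : z ∈ C := ⟨⟨hwz.le, le_refl _⟩, h.symm⟩
  have hcont : ContinuousOn (fun x : ℂ => (W x).re) C := by
    intro x hx
    exact (Complex.continuous_re.continuousAt.comp
      (D.hW x (lt_of_lt_of_le hw hx.1.1)).continuousAt).continuousWithinAt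
  obtain ⟨m, hm, hmax⟩ := hcomp.exists_isMaxOn ⟨w, hwC⟩ hcont
  -- points below the top are not maximal
  have key : ∀ x ∈ C, x.im < z.im → ∃ y ∈ C, (W x).re < (W y).re := by
    intro x hx hxz
    obtain ⟨y, h1, h2, h3, h4⟩ := D.local_inc (w := x) (lt_of_lt_of_le hw hx.1.1)
      (δ := z.im - x.im) (by linarith)
    refine ⟨y, ⟨⟨?_, ?_⟩, ?_⟩, h4⟩
    · exact hx.1.1.trans h1.le
    · linarith
    · rw [h3]; exact hx.2
  have hmz : m = z := by
    have h1 : m.im = z.im := by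
      by_contra hne
      have : m.im < z.im := lt_of_le_of_ne hm.1.2 hne
      obtain ⟨y, hy, hlt⟩ := key m hm this
      exact absurd (hmax hy) (not_le.mpr hlt)
    exact level_eq D.ha (lt_of_lt_of_le hw hm.1.1) h1 (hm.2.trans h)
  obtain ⟨y, hy, hlt⟩ := key w hwC hwz
  have := hmax hy
  rw [hmz] at this
  exact lt_of_lt_of_le hlt this

/-- The shear. -/
def shear (a β : ℝ) (W : ℂ → ℂ) (w : ℂ) : ℂ := ⟨(W w).re, (Psi a β w).im⟩

theorem Data.inj (D : Data a β W q τ1 τ2) : Set.InjOn (shear a β W) {w | 0 < w.im} := by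
  intro w hw z hz h
  have h1 : (W w).re = (W z).re := by
    have := congrArg Complex.re h
    simpa [shear] using this
  have h2 : (Psi a β w).im = (Psi a β z).im := by
    have := congrArg Complex.im h
    simpa [shear] using this
  rcases lt_trichotomy w.im z.im with h3 | h3 | h3
  · exact absurd h1 (ne_of_lt (D.strictMono hw h3 h2))
  · exact level_eq D.ha hw h3 h2
  · exact absurd h1 (ne_of_gt (D.strictMono hz h3 h2.symm))

/-- The real part of `W` on the level curve. -/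
def XX (a β : ℝ) (W : ℂ → ℂ) (v y : ℝ) : ℝ := (W ⟨lev a β v y, y⟩).re

theorem Data.XX_mono (D : Data a β W q τ1 τ2) (v : ℝ) {y1 y2 : ℝ} (h1 : 0 < y1) (h : y1 < y2) :
    XX a β W v y1 < XX a β W v y2 := by
  apply D.strictMono (w := ⟨lev a β v y1, y1⟩) (z := ⟨lev a β v y2, y2⟩) h1 h
  rw [lev_spec D.ha h1, lev_spec D.ha (h1.trans h)]

theorem Data.path_cont (D : Data a β W q τ1 τ2) (v : ℝ) :
    ContinuousOn (fun y : ℝ => (⟨lev a β v y, y⟩ : ℂ)) (Set.Ioi 0) := by
  have h1 := lev_cont (β := β) D.ha v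
  have : (fun y : ℝ => (⟨lev a β v y, y⟩ : ℂ)) = fun y : ℝ => ((lev a β v y : ℝ) : ℂ) + (y : ℂ) * I := by
    funext y
    exact Complex.mk_eq_add_mul_I _ _
  rw [this]
  exact (Complex.continuous_ofReal.comp_continuousOn h1).add
    ((Complex.continuous_ofReal.continuousOn).mul continuousOn_const)

theorem Data.XX_cont (D : Data a β W q τ1 τ2) (v : ℝ) : ContinuousOn (XX a β W v) (Set.Ioi 0) := by
  have h1 := D.path_cont v
  have h2 : ContinuousOn (fun x : ℂ => (W x).re) {w | 0 < w.im} := by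
    intro x hx
    exact (Complex.continuous_re.continuousAt.comp (D.hW x hx).continuousAt).continuousWithinAt
  exact h2.comp h1 (fun y hy => hy)

end

end Pool.Agent.TH221.HM
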